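import Pool.Agent.H84.Sy.SphDefs

/-!
# Symplectomorphisms of `ℝ^{2(m+n)}` whose `m × m` block has no eigenvalues `≤ 0`: definitions

The coordinates of `z ∈ ℝ^{2(m+n)}` are `x_i = z (i, 0)`, `y_i = z (i, 1)`; we write `z = (x, y, v)`,
where `x` and `y` are the first `m` of the coordinates `x_i` and `y_i` and `v ∈ ℝ^{2n}` is the rest.
-/

set_option autoImplicit false

open Set Filter Topology Metric Function
open scoped ContDiff NNReal

noncomputable section

namespace Pool.Agent.H84.Blk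

open Pool.Agent.X277.Sy

variable {k m n : ℕ}

/-- The block `∂(x_i ∘ φ)/∂x_j`, `i, j ≤ m`, of the derivative of `φ` has at no point a real
eigenvalue `c ≤ 0`: if `h` is a combination of the first `m` vectors `∂/∂x_j` and the first `m`
coordinates `x_i` of `Dφ(z)h` are those of `c h`, `c ≤ 0`, then `h = 0`. -/
def NoNegBlock (m n : ℕ) (φ : SympCt (m + n)) : Prop :=
  ∀ (z h : E (m + n)) (c : ℝ), c ≤ 0 →
    (∀ (i : Fin (m + n)) (j : Fin 2), m ≤ (i : ℕ) ∨ j = 1 → h (i, j) = 0) →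
    (∀ i : Fin (m + n), (i : ℕ) < m → fderiv ℝ φ.map z h (i, 0) = c * h (i, 0)) → h = 0

/-- the point `(X, y) ∈ ℝ^{2m}` for `z = (x, y, v)` and `z' = (X, Y, V)` -/
def mixVec (z z' : E (m + n)) : E m :=
  WithLp.toLp 2 fun p => if p.2 = 0 then z' (Fin.castAdd n p.1, 0) else z (Fin.castAdd n p.1, 1)

/-- the point `v ∈ ℝ^{2n}` for `z = (x, y, v)` -/
def lastVec (z : E (m + n)) : E n := WithLp.toLp 2 fun p => z (Fin.natAdd m p.1, p.2)

/-- A smooth `k`-spheroid in the `2m`-fold loop space of `Symp_ct(ℝ^{2n})`: a family with parameters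
in `ℝ^k × ℝ^{2m}`, smooth in all variables, equal to `1` for large parameters, with supports in one
ball. -/
@[ext] structure Loops (k m n : ℕ) where
  /-- the family -/
  fam : EuclideanSpace ℝ (Fin k) × E m → SympCt n
  smooth : IsSmoothFamily fam
  bounded : ∃ r : ℝ, (∀ s w, (r ≤ ‖s‖ ∨ r ≤ ‖w‖) → fam (s, w) = 1) ∧
    ∀ p, SupportedIn (closedBall 0 r) (fam p).map

/-- Smooth homotopies of spheroids of loops (with one bound for all times). -/
def LoopHomotopic (T T' : Loops k m n) : Prop :=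
  ∃ F : (ℝ × EuclideanSpace ℝ (Fin k)) × E m → SympCt n, IsSmoothFamily F ∧
    (∀ s w, F ((0, s), w) = T.fam (s, w)) ∧ (∀ s w, F ((1, s), w) = T'.fam (s, w)) ∧
    ∃ r : ℝ, (∀ t s w, (r ≤ ‖s‖ ∨ r ≤ ‖w‖) → F ((t, s), w) = 1) ∧
      ∀ p, SupportedIn (closedBall 0 r) (F p).map

/-- Smooth homotopies of spheroids `φ_s` such that the blocks have no real eigenvalues `≤ 0`. -/
def BlockHomotopic (φ ψ : Spheroid k (m + n)) : Prop :=
  ∃ K : Set (E (m + n)), IsCompact K ∧ ∃ F : ℝ × EuclideanSpace ℝ (Fin k) → SympCt (m + n),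
    IsSmoothFamily F ∧ (∀ s, F (0, s) = φ.fam s) ∧ (∀ s, F (1, s) = ψ.fam s) ∧
    (∃ r : ℝ, ∀ t s, r ≤ ‖s‖ → F (t, s) = 1) ∧ (∀ q, SupportedIn K (F q).map) ∧
    ∀ q, NoNegBlock m n (F q)

/-- `T` is the family of the slices of the spheroid `φ`: if `φ_s(x, y, v) = (X, Y, V)`, then
`T_{s,(X,y)}(v) = V`. -/
def IsSlices (T : Loops k m n) (φ : Spheroid k (m + n)) : Prop :=
  ∀ s z, (T.fam (s, mixVec z ((φ.fam s).map z))).map (lastVec z) = lastVec ((φ.fam s).map z)

/-- Every `k`-spheroid in the space of the symplectomorphisms whose blocks have no real eigenvalues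
`≤ 0` is contractible in this space. -/
def BlockTrivial (k m n : ℕ) : Prop :=
  ∀ φ : Spheroid k (m + n), (∀ s, NoNegBlock m n (φ.fam s)) →
    BlockHomotopic φ (trivialSpheroid k (m + n))

end Pool.Agent.H84.Blk
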