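import Pool.Agent.H84.Blk.Slice

/-!
# The slices of a symplectomorphism with a good block
-/

set_option autoImplicit false
set_option linter.unusedSectionVars false

open Set Filter Topology Metric Function
open scoped ContDiff NNReal

noncomputable section

namespace Pool.Agent.H84.Blk

open Pool.Agent.X277.Sy Pool.Agent.H84.PP

variable {m n : ℕ} {Q : Type} [NormedAddCommGroup Q] [NormedSpace ℝ Q]

theorem far_image {N : ℕ} {φ : SympCt N} {R : ℝ} (h : SupportedIn (closedBall 0 R) φ.map) {z : E N}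
    (hz : R < ‖φ.map z‖) : φ.map z = z := by
  have h1 : φ.map (φ.map z) = φ.map z := h _ (by rwa [mem_closedBall_zero_iff, not_le])
  have h2 := congrArg (φ⁻¹).map h1
  rwa [inv_map_map, inv_map_map] at h2

theorem far_point {N : ℕ} {φ : SympCt N} {R : ℝ} (h : SupportedIn (closedBall 0 R) φ.map) {z : E N}
    (hz : R < ‖z‖) : φ.map z = z :=
  h _ (by rwa [mem_closedBall_zero_iff, not_le])

/-- the data extracted from a family of symplectomorphisms with good blocks -/
structure Data (R : ℝ) (φ : Q → SympCt (m + n)) (T : Q × E m → SympCt n)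
    (g : Q → E (m + n) → E m) : Prop where
  tfam : TFam R T
  gen : Gen R T g
  good : ∀ q, GoodGen (g q)
  slice : ∀ q, IsSliceAt (fun w => T (q, w)) (φ q).map
  comp : ∀ q z, (φ q).map (Amap (g q) z) = Cmap (hat T q) (g q) z
  surj : ∀ q, Surjective (Amap (g q))

/-- **Extraction.** -/
theorem extract (hn : 0 < n) [FiniteDimensional ℝ Q] {R : ℝ} (hR : 0 ≤ R)
    {φ : Q → SympCt (m + n)} (hφ : IsSmoothFamily φ)
    (hs : ∀ q, SupportedIn (closedBall 0 R) (φ q).map) (hgood : ∀ q, GoodBlock (φ q).map) :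
    ∃ (T : Q × E m → SympCt n) (g : Q → E (m + n) → E m), Data (2 * R + 1) φ T g := by
  have hφs : ContDiff ℝ ∞ (fun p : Q × E (m + n) => (φ p.1).map p.2) := hφ
  have hφd : ∀ q, Differentiable ℝ (φ q).map := fun q => (φ q).isSymp.smooth.differentiable (by simp)
  let B : Q → E (m + n) → E (m + n) := fun q z =>
    jw (cx (bw ((φ q).map z)) + cy (bw z)) + jv (bv z)
  have hBs : ContDiff ℝ ∞ (fun p : Q × E (m + n) => B p.1 p.2) :=
    (jw.contDiff.comp ((cx.contDiff.comp (bw.contDiff.comp hφs)).add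
      (cy.contDiff.comp (bw.contDiff.comp contDiff_snd)))).add
      (jv.contDiff.comp (bv.contDiff.comp contDiff_snd))
  have hBd : ∀ q z a, fderiv ℝ (B q) z a =
      jw (cx (bw (fderiv ℝ (φ q).map z a)) + cy (bw a)) + jv (bv a) := by
    intro q z a
    have h1 : HasFDerivAt (B q) (jw.comp (cx.comp (bw.comp (fderiv ℝ (φ q).map z)) + cy.comp bw) +
        jv.comp bv) z :=
      (jw.hasFDerivAt.comp z ((cx.hasFDerivAt.comp z (bw.hasFDerivAt.comp z
        (hφd q z).hasFDerivAt)).add (cy.hasFDerivAt.comp z bw.hasFDerivAt))).add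
        (jv.hasFDerivAt.comp z bv.hasFDerivAt)
    rw [h1.fderiv]
    rfl
  have hB0 : ∀ q z, R < ‖z‖ → B q z = z := by
    intro q z hz
    show jw (cx (bw ((φ q).map z)) + cy (bw z)) + jv (bv z) = z
    rw [far_point (hs q) hz, cx_add_cy, eta2]
  have hinj : ∀ q z, Injective (fderiv ℝ (B q) z) := by
    intro q z
    refine (injective_iff_map_eq_zero _).2 fun a ha => ?_
    rw [hBd] at ha
    have h1 := congrArg bv ha
    have h2 := congrArg bw ha
    simp only [map_add, bv_jw, bv_jv, zero_add, map_zero, bw_jw, bw_jv, add_zero] at h1 h2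
    have h3 : cy (bw a) = 0 := by
      have := congrArg cy h2
      simpa using this
    have h4 : a = jw (bw a) := by
      conv_lhs => rw [← eta2 a]
      rw [h1, map_zero, add_zero]
    have h5 : cx (bw a) = bw a := by
      conv_rhs => rw [← cx_add_cy (bw a)]
      rw [h3, add_zero]
    rw [h3, add_zero] at h2
    have h6 : bw a = 0 := hgood q z 0 (bw a) le_rfl h5 (by rw [← h4, h2, zero_smul])
    rw [h4, h6, map_zero]
  have hN : 0 < m + n := by omega
  obtain ⟨A, hAs, hA1, hA2⟩ := exists_diffeo hN hBs hinj hB0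
  -- the components
  have k1 : ∀ q z, cx (bw ((φ q).map (A q z))) = cx (bw z) := by
    intro q z
    have h1 := congrArg (fun y => cx (bw y)) (hA2 q z)
    simp only [B, map_add, bw_jw, bw_jv, add_zero, cx_cx, cx_cy] at h1
    exact h1
  have k2 : ∀ q z, cy (bw (A q z)) = cy (bw z) := by
    intro q z
    have h1 := congrArg (fun y => cy (bw y)) (hA2 q z)
    simp only [B, map_add, bw_jw, bw_jv, add_zero, cy_cx, cy_cy, zero_add] at h1
    exact h1
  have k3 : ∀ q z, bv (A q z) = bv z := by
    intro q z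
    have h1 := congrArg bv (hA2 q z)
    simp only [B, map_add, bv_jw, bv_jv, zero_add] at h1
    exact h1
  let g : Q → E (m + n) → E m := fun q z => bw (A q z) - bw ((φ q).map (A q z))
  have hφA : ContDiff ℝ ∞ (fun p : Q × E (m + n) => (φ p.1).map (A p.1 p.2)) :=
    hφs.comp (contDiff_fst.prodMk hAs)
  have hgs : ContDiff ℝ ∞ (fun p : Q × E (m + n) => g p.1 p.2) :=
    (bw.contDiff.comp hAs).sub (bw.contDiff.comp hφA)
  let F : Q → E (m + n) → E n := fun q z => bv ((φ q).map (A q z))
  have hFs : ContDiff ℝ ∞ (fun p : Q × E (m + n) => F p.1 p.2) := bv.contDiff.comp hφA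
  have hgd : ∀ q, Differentiable ℝ (g q) := fun q => fam_diff hgs q
  have hFd : ∀ q, Differentiable ℝ (F q) := fun q => fam_diff hFs q
  have hAmap : ∀ q z, Amap (g q) z = A q z := by
    intro q z
    refine ext2 ?_ ?_
    · show bw (z + jw (cx (bw (A q z) - bw ((φ q).map (A q z))))) = bw (A q z)
      rw [map_add, bw_jw, map_sub, k1, ← cx_add_cy (bw (A q z)), map_add, cx_cx, cx_cy, add_zero,
        k2]
      conv_lhs => rw [← cx_add_cy (bw z)]
      simp only [map_add, cx_cx, cx_cy, add_zero]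
      abel
    · show bv (z + jw _) = bv (A q z)
      rw [map_add, bv_jw, add_zero, k3]
  have hCmap : ∀ q z, (φ q).map (A q z) = Cmap (F q) (g q) z := by
    intro q z
    refine ext2 ?_ ?_
    · show bw ((φ q).map (A q z)) =
        bw (jw (bw z - cy (bw (A q z) - bw ((φ q).map (A q z)))) + jv (F q z))
      rw [map_add, bw_jw, bw_jv, add_zero, map_sub, k2]
      conv_lhs => rw [← cx_add_cy (bw ((φ q).map (A q z))), k1]
      conv_rhs => rw [← cx_add_cy (bw z)]
      simp only [map_add, cy_cx, cy_cy, zero_add]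
      abel
    · show bv ((φ q).map (A q z)) = bv (jw _ + jv (F q z))
      rw [map_add, bv_jw, bv_jv, zero_add]
  -- the identity
  have hid : ∀ q z a b, omega (fderiv ℝ (F q) z a) (fderiv ℝ (F q) z b) =
      omega (bv a) (bv b) + omega (fderiv ℝ (g q) z a) (bw b) -
        omega (fderiv ℝ (g q) z b) (bw a) := by
    intro q z a b
    have h1 := forms_eq (hFd q) (hgd q) z a b
    have h2 : ∀ a, fderiv ℝ (Cmap (F q) (g q)) z a =
        fderiv ℝ (φ q).map (A q z) (fderiv ℝ (Amap (g q)) z a) := by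
      intro a
      have h3 : HasFDerivAt (fun z => (φ q).map (Amap (g q) z))
          ((fderiv ℝ (φ q).map (Amap (g q) z)).comp (fderiv ℝ (Amap (g q)) z)) z :=
        (hφd q _).hasFDerivAt.comp z
          (hasFDerivAt_Amap (hgd q) z).differentiableAt.hasFDerivAt
      have h4 : (fun z => (φ q).map (Amap (g q) z)) = Cmap (F q) (g q) := by
        funext y
        rw [hAmap, hCmap]
      rw [h4, hAmap] at h3
      rw [h3.fderiv]
      rfl
    rw [h2, h2, (φ q).isSymp.symplectic] at h1
    linarith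
  -- far points
  have hfar : ∀ q z, R < ‖z‖ → A q z = z := by
    intro q z hz
    have := hA1 q z
    rwa [hB0 q z hz] at this
  have hfar2 : ∀ q z, 2 * R < ‖bw z‖ ∨ R < ‖bv z‖ → (φ q).map (A q z) = A q z := by
    intro q z hz
    rcases hz with hz | hz
    · by_contra hcon
      have h1 : ‖A q z‖ ≤ R := by
        by_contra h
        exact hcon (far_point (hs q) (not_le.1 h))
      have h2 : ‖(φ q).map (A q z)‖ ≤ R := by
        by_contra h
        exact hcon (far_image (hs q) (not_le.1 h))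
      have h3 : bw z = cx (bw ((φ q).map (A q z))) + cy (bw (A q z)) := by
        rw [k1, k2, cx_add_cy]
      have h4 : ‖bw z‖ ≤ R + R := by
        rw [h3]
        refine (norm_add_le _ _).trans (add_le_add ?_ ?_)
        · exact ((norm_cx_le _).trans (norm_bw_le _)).trans h2
        · exact ((norm_cy_le _).trans (norm_bw_le _)).trans h1
      linarith
    · refine far_point (hs q) ?_
      have h1 := norm_bv_le (A q z)
      rw [k3] at h1
      linarith
  have hg0 : ∀ q z, 2 * R < ‖bw z‖ ∨ R < ‖bv z‖ → g q z = 0 := by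
    intro q z hz
    show bw (A q z) - bw ((φ q).map (A q z)) = 0
    rw [hfar2 q z hz, sub_self]
  have hF0 : ∀ q z, 2 * R < ‖bw z‖ ∨ R < ‖bv z‖ → F q z = bv z := by
    intro q z hz
    show bv ((φ q).map (A q z)) = bv z
    rw [hfar2 q z hz, k3]
  -- the slices
  let Θ : Q × E m → E n → E n := fun p v => F p.1 (jw p.2 + jv v)
  have hΘs : ContDiff ℝ ∞ (fun r : (Q × E m) × E n => Θ r.1 r.2) :=
    hFs.comp ((contDiff_fst.comp contDiff_fst).prodMk
      ((jw.contDiff.comp (contDiff_snd.comp contDiff_fst)).add (jv.contDiff.comp contDiff_snd)))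
  have hΘd : ∀ p v a, fderiv ℝ (Θ p) v a = fderiv ℝ (F p.1) (jw p.2 + jv v) (jv a) := by
    intro p v a
    have h1 : HasFDerivAt (fun v : E n => jw p.2 + jv v) (jv : E n →L[ℝ] E (m + n)) v :=
      jv.hasFDerivAt.const_add _
    have h2 : HasFDerivAt (Θ p) ((fderiv ℝ (F p.1) (jw p.2 + jv v)).comp jv) v :=
      (hFd p.1 _).hasFDerivAt.comp v h1
    rw [h2.fderiv]
    rfl
  have hΘ0 : ∀ p, SupportedIn (closedBall 0 R) (Θ p) := by
    intro p v hv
    rw [mem_closedBall_zero_iff, not_le] at hv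
    show F p.1 (jw p.2 + jv v) = v
    rw [hF0 p.1 _ (Or.inr (by simpa using hv))]
    simp
  have hΘsymp : ∀ p, IsSymplectomorphism (Θ p) := by
    intro p
    refine mkSymp hn (hΘs.comp (contDiff_const.prodMk contDiff_id)) (fun v a b => ?_)
      (isCompact_closedBall 0 R) (hΘ0 p)
    rw [hΘd, hΘd, hid]
    simp [omega_zero_right]
  let T : Q × E m → SympCt n := fun p => ⟨Θ p, hΘsymp p, closedBall 0 R, isCompact_closedBall _ _,
    hΘ0 p⟩
  have hhat : ∀ q, hat T q = F q := by
    intro q
    funext z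
    show F q (jw (bw z) + jv (bv z)) = F q z
    rw [eta2]
  refine ⟨T, g, ⟨hΘs, fun p => ?_, fun q w hw => ?_⟩, ⟨hgs, fun q z hz => ?_, fun q z hz => ?_,
    fun q z a b => ?_⟩, ?_, ?_, ?_, ?_⟩
  · exact supp_mono (closedBall_subset_closedBall (by linarith)) (hΘ0 p)
  · apply SympCt.ext
    funext v
    show F q (jw w + jv v) = v
    rw [hF0 q _ (Or.inl (by simp only [map_add, bw_jw, bw_jv, add_zero]; linarith))]
    simp
  · exact hg0 q z (Or.inl (by linarith))
  · exact hg0 q z (Or.inr (by linarith))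
  · rw [hhat]
    exact hid q z a b
  · intro q z c h hc hh hD
    have h1 : fderiv ℝ (Amap (g q)) z (jw h) = c • jw h := by
      rw [fderiv_Amap (hgd q), ← map_add, hD, map_smul]
    have h2 : fderiv ℝ (B q) (A q z) (fderiv ℝ (Amap (g q)) z (jw h)) = jw h := by
      have h3 : HasFDerivAt (fun z => B q (Amap (g q) z))
          ((fderiv ℝ (B q) (Amap (g q) z)).comp (fderiv ℝ (Amap (g q)) z)) z :=
        HasFDerivAt.comp z (fam_diff (g := B) hBs q _).hasFDerivAt
          (hasFDerivAt_Amap (hgd q) z).differentiableAt.hasFDerivAt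
      have h4 : (fun z => B q (Amap (g q) z)) = id := by
        funext y
        rw [hAmap, hA2]
        rfl
      rw [h4, hAmap] at h3
      have h5 := h3.unique (hasFDerivAt_id z)
      exact DFunLike.congr_fun h5 (jw h)
    have hcy : cy h = 0 := by rw [← hh, cy_cx]
    rw [h1, map_smul, hBd, bw_jw, bv_jw, hcy, add_zero, map_zero, add_zero, ← map_smul] at h2
    have h3 := congrArg bw h2
    rw [bw_jw, bw_jw] at h3
    rcases hc.eq_or_lt with h4 | h4
    · rw [← h3, h4, zero_smul]
    · refine hgood q (A q z) c⁻¹ h (inv_nonpos.2 hc) hh ?_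
      conv_rhs => rw [← h3]
      rw [smul_smul, inv_mul_cancel₀ h4.ne, one_smul]
  · intro q y
    show F q (jw (cx (bw ((φ q).map y)) + cy (bw y)) + jv (bv y)) = bv ((φ q).map y)
    show bv ((φ q).map (A q (B q y))) = bv ((φ q).map y)
    rw [hA1]
  · intro q z
    rw [hAmap, hCmap, hhat]
  · intro q y
    exact ⟨B q y, by rw [hAmap, hA1]⟩

/-- **Uniqueness**: the slices determine the symplectomorphism. -/
theorem slice_unique (hn : 0 < n) {φ ψ : SympCt (m + n)} (hφ : GoodBlock φ.map)
    (hψ : GoodBlock ψ.map) {T : E m → SympCt n} (h1 : IsSliceAt T φ.map)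
    (h2 : IsSliceAt T ψ.map) : φ = ψ := by
  obtain ⟨K, hK, hKφ⟩ := φ.compactSupport
  obtain ⟨L, hL, hLψ⟩ := ψ.compactSupport
  obtain ⟨r, hr⟩ := hK.isBounded.subset_closedBall (0 : E (m + n))
  obtain ⟨s, hs⟩ := hL.isBounded.subset_closedBall (0 : E (m + n))
  obtain ⟨T1, g1, d1⟩ := extract (Q := EuclideanSpace ℝ (Fin 0)) (m := m) hn
    (le_max_right r 0) (φ := fun _ => φ)
    (isSmoothFamily_const φ) (fun _ => supp_mono (hr.trans (closedBall_subset_closedBall
      (le_max_left _ _))) hKφ) (fun _ => hφ)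
  obtain ⟨T2, g2, d2⟩ := extract (Q := EuclideanSpace ℝ (Fin 0)) (m := m) hn
    (le_max_right s 0) (φ := fun _ => ψ)
    (isSmoothFamily_const ψ) (fun _ => supp_mono (hs.trans (closedBall_subset_closedBall
      (le_max_left _ _))) hLψ) (fun _ => hψ)
  have key : ∀ {χ : SympCt (m + n)} {R : ℝ} {T' : EuclideanSpace ℝ (Fin 0) × E m → SympCt n}
      {g : EuclideanSpace ℝ (Fin 0) → E (m + n) → E m}, Data R (fun _ => χ) T' g →
      IsSliceAt T χ.map → ∀ w v, (T' (0, w)).map v = (T w).map v := by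
    intro χ R T' g d h w v
    set z : E (m + n) := jw w + jv v with hz
    have h3 := h (Amap (g 0) z)
    have h4 := d.slice 0 (Amap (g 0) z)
    have h5 : cx (bw (χ.map (Amap (g 0) z))) + cy (bw (Amap (g 0) z)) = w := by
      rw [d.comp 0 z]
      unfold Amap Cmap
      simp only [map_add, map_sub, bw_jw, bw_jv, add_zero, cx_cy, cy_cx, sub_zero]
      rw [hz]
      simp [cx_add_cy]
    have h6 : bv (Amap (g 0) z) = v := by
      unfold Amap
      rw [hz]
      simp
    simp only at h3 h4
    rw [h5, h6] at h3 h4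
    rw [h3, h4]
  have hhat : hat T1 (0 : EuclideanSpace ℝ (Fin 0)) = hat T2 0 := by
    funext z
    show (T1 (0, bw z)).map (bv z) = (T2 (0, bw z)).map (bv z)
    rw [key d1 h1, key d2 h2]
  have hg : g1 0 = g2 0 := funext fun z => Gen.unique hn d1.gen d2.gen hhat z
  apply SympCt.ext
  funext y
  obtain ⟨z, rfl⟩ := d1.surj 0 y
  have e1 := d1.comp 0 z
  have e2 := d2.comp 0 z
  show φ.map (Amap (g1 0) z) = ψ.map (Amap (g1 0) z)
  rw [e1, hhat, hg, ← e2]

end Pool.Agent.H84.Blk
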