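import Pool.Agent.H84.Blk.Split

/-!
# Generating functions of families of symplectomorphisms
-/

set_option autoImplicit false
set_option linter.unusedSectionVars false

open Set Filter Topology Metric Function
open scoped ContDiff NNReal

noncomputable section

namespace Pool.Agent.H84.Blk

open Pool.Agent.X277.Sy Pool.Agent.H84.PP

variable {m n : ℕ} {Q : Type} [NormedAddCommGroup Q] [NormedSpace ℝ Q]

/-! ### Second derivatives -/

section Second

variable {A B : Type} [NormedAddCommGroup A] [NormedSpace ℝ A] [NormedAddCommGroup B]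
  [NormedSpace ℝ B]

theorem line_deriv (z a : A) (t : ℝ) : HasDerivAt (fun t : ℝ => z + t • a) a t := by
  have := ((hasDerivAt_id t).smul_const a).const_add z
  simpa using this

theorem dir_deriv {F : A → B} (hF : Differentiable ℝ F) (z a : A) (t : ℝ) :
    HasDerivAt (fun t : ℝ => F (z + t • a)) (fderiv ℝ F (z + t • a) a) t :=
  (hF (z + t • a)).hasFDerivAt.comp_hasDerivAt t (line_deriv z a t)

theorem dir_deriv2 {F : A → B} (hF : ContDiff ℝ ∞ F) (z a b : A) (t : ℝ) :
    HasDerivAt (fun t : ℝ => fderiv ℝ F (z + t • a) b)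
      (fderiv ℝ (fderiv ℝ F) (z + t • a) a b) t := by
  have h1 : ContDiff ℝ ∞ (fderiv ℝ F) := hF.fderiv_right (m := ∞) (by simp)
  have h2 := dir_deriv (h1.differentiable (by simp)) z a t
  have h3 := h2.clm_apply (hasDerivAt_const t b)
  refine h3.congr_deriv ?_
  simp

theorem second_symm {F : A → B} (hF : ContDiff ℝ ∞ F) (z a b : A) :
    fderiv ℝ (fderiv ℝ F) z a b = fderiv ℝ (fderiv ℝ F) z b a := by
  have h : IsSymmSndFDerivAt ℝ F z := hF.contDiffAt.isSymmSndFDerivAt two_le_infty
  exact h.eq a b

end Second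

/-- the family of maps on the product -/
def hat (T : Q × E m → SympCt n) (q : Q) (z : E (m + n)) : E n := (T (q, bw z)).map (bv z)

/-- a smooth family with parameters in `Q × ℝ^{2m}`, trivial far away -/
structure TFam (R : ℝ) (T : Q × E m → SympCt n) : Prop where
  smooth : IsSmoothFamily T
  supp : ∀ p, SupportedIn (closedBall 0 R) (T p).map
  far : ∀ q w, R ≤ ‖w‖ → T (q, w) = 1

theorem hat_smooth {T : Q × E m → SympCt n} (h : IsSmoothFamily T) :
    ContDiff ℝ ∞ (fun p : Q × E (m + n) => hat T p.1 p.2) := by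
  have h1 : ContDiff ℝ ∞ (fun p : Q × E (m + n) => ((p.1, bw p.2), bv p.2)) :=
    (contDiff_fst.prodMk (bw.contDiff.comp contDiff_snd)).prodMk (bv.contDiff.comp contDiff_snd)
  exact ContDiff.comp h h1

theorem hat_slice {T : Q × E m → SympCt n} (h : IsSmoothFamily T) (q : Q) :
    ContDiff ℝ ∞ (hat T q) := (hat_smooth h).comp (contDiff_const.prodMk contDiff_id)

theorem hat_far_v {R : ℝ} {T : Q × E m → SympCt n} (h : TFam R T) {q : Q} {z : E (m + n)}
    (hz : R < ‖bv z‖) : hat T q z = bv z :=
  h.supp _ _ (by rw [mem_closedBall_zero_iff, not_le]; exact hz)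

theorem hat_far_w {R : ℝ} {T : Q × E m → SympCt n} (h : TFam R T) {q : Q} {z : E (m + n)}
    (hz : R ≤ ‖bw z‖) : hat T q z = bv z := by
  unfold hat
  rw [h.far q _ hz]
  rfl

/-- the derivative in the direction of the fibre -/
theorem hat_fderiv_fib {T : Q × E m → SympCt n} (h : IsSmoothFamily T) (q : Q) (z : E (m + n))
    (u : E n) : fderiv ℝ (hat T q) z (jv u) = fderiv ℝ (T (q, bw z)).map (bv z) u := by
  have h1 := dir_deriv ((hat_slice h q).differentiable (by simp)) z (jv u) 0
  rw [zero_smul, add_zero] at h1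
  have h2 := dir_deriv (((T (q, bw z)).isSymp.smooth).differentiable (by simp)) (bv z) u 0
  rw [zero_smul, add_zero] at h2
  have h3 : (fun t : ℝ => hat T q (z + t • jv u)) = fun t => (T (q, bw z)).map (bv z + t • u) := by
    funext t
    unfold hat
    simp
  rw [h3] at h1
  exact h1.unique h2

theorem hat_fib_fib {T : Q × E m → SympCt n} (h : IsSmoothFamily T) (q : Q) (z : E (m + n))
    (u u' : E n) : omega (fderiv ℝ (hat T q) z (jv u)) (fderiv ℝ (hat T q) z (jv u')) =
      omega u u' := by
  rw [hat_fderiv_fib h, hat_fderiv_fib h]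
  exact (T (q, bw z)).isSymp.symplectic _ _ _

/-- `g` generates the family `T` -/
structure Gen (R : ℝ) (T : Q × E m → SympCt n) (g : Q → E (m + n) → E m) : Prop where
  smooth : ContDiff ℝ ∞ (fun p : Q × E (m + n) => g p.1 p.2)
  far_w : ∀ q z, R < ‖bw z‖ → g q z = 0
  far_v : ∀ q z, R < ‖bv z‖ → g q z = 0
  eq : ∀ q z a b, omega (fderiv ℝ (hat T q) z a) (fderiv ℝ (hat T q) z b) =
    omega (bv a) (bv b) + omega (fderiv ℝ (g q) z a) (bw b) - omega (fderiv ℝ (g q) z b) (bw a)

theorem gen_slice {g : Q → E (m + n) → E m}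
    (h : ContDiff ℝ ∞ (fun p : Q × E (m + n) => g p.1 p.2)) (q : Q) : ContDiff ℝ ∞ (g q) :=
  h.comp (contDiff_const.prodMk contDiff_id)

/-- a function with zero derivatives along the fibres, which vanishes far away, is zero -/
theorem zero_of_fib (hn : 0 < n) {c : E (m + n) → ℝ} {R : ℝ}
    (h1 : ∀ z u (t : ℝ), HasDerivAt (fun t : ℝ => c (z + t • jv u)) 0 t)
    (h2 : ∀ z, R < ‖bv z‖ → c z = 0) (z : E (m + n)) : c z = 0 := by
  obtain ⟨e, he⟩ := PFam.exists_ne hn
  have h4 := is_const_of_deriv_eq_zero (fun t => (h1 z e t).differentiableAt)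
      (fun t => (h1 z e t).deriv) 0 (‖bv z‖ + |R| + 1)
  simp only [zero_smul, add_zero] at h4
  rw [h4]
  refine h2 _ ?_
  simp only [map_add, map_smul, bv_jv]
  have h5 : ‖(‖bv z‖ + |R| + 1) • e‖ = ‖bv z‖ + |R| + 1 := by
    rw [norm_smul, he, mul_one, Real.norm_eq_abs, abs_of_nonneg (by positivity)]
  have h6 := norm_sub_norm_le ((‖bv z‖ + |R| + 1) • e) (-bv z)
  rw [sub_neg_eq_add, norm_neg, h5] at h6
  rw [add_comm (bv z)]
  linarith [le_abs_self R]

/-- **The base components**, by closedness. -/
theorem eq_of_mixed (hn : 0 < n) {F : E (m + n) → E n} (hF : ContDiff ℝ ∞ F)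
    {g : E (m + n) → E m} (hg : ContDiff ℝ ∞ g)
    (hff : ∀ z u u', omega (fderiv ℝ F z (jv u)) (fderiv ℝ F z (jv u')) = omega u u')
    (hM : ∀ z u h, omega (fderiv ℝ F z (jv u)) (fderiv ℝ F z (jw h)) =
      omega (fderiv ℝ g z (jv u)) h)
    {R : ℝ} (hfarF : ∀ z, R < ‖bv z‖ → F z = bv z) (hfarg : ∀ z, R < ‖bv z‖ → g z = 0)
    (z a b : E (m + n)) : omega (fderiv ℝ F z a) (fderiv ℝ F z b) =
      omega (bv a) (bv b) + omega (fderiv ℝ g z a) (bw b) - omega (fderiv ℝ g z b) (bw a) := by
  have hbb : ∀ z (h h' : E m), omega (fderiv ℝ F z (jw h)) (fderiv ℝ F z (jw h')) =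
      omega (fderiv ℝ g z (jw h)) h' - omega (fderiv ℝ g z (jw h')) h := by
    intro z h h'
    have hc := zero_of_fib hn (c := fun z => omega (fderiv ℝ F z (jw h)) (fderiv ℝ F z (jw h')) -
      omega (fderiv ℝ g z (jw h)) h' + omega (fderiv ℝ g z (jw h')) h) (R := R) ?_ ?_ z
    · linarith
    · intro z u t
      set y := z + t • jv u with hy
      have e1 := dir_deriv2 hF z (jv u) (jw h) t
      have e2 := dir_deriv2 hF z (jv u) (jw h') t
      have e3 := dir_deriv2 hg z (jv u) (jw h) t
      have e4 := dir_deriv2 hg z (jv u) (jw h') t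
      have e5 := ((hasDerivAt_omega e1 e2).sub (hasDerivAt_omega e3 (hasDerivAt_const t h'))).add
        (hasDerivAt_omega e4 (hasDerivAt_const t h))
      refine e5.congr_deriv ?_
      rw [← hy]
      simp only [omega_zero_right, add_zero]
      -- the derivatives of the mixed identity
      have hMd : ∀ k k' : E m, omega (fderiv ℝ (fderiv ℝ F) y (jw k) (jv u))
            (fderiv ℝ F y (jw k')) +
          omega (fderiv ℝ F y (jv u)) (fderiv ℝ (fderiv ℝ F) y (jw k) (jw k')) =
          omega (fderiv ℝ (fderiv ℝ g) y (jw k) (jv u)) k' := by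
        intro k k'
        have f1 := dir_deriv2 hF y (jw k) (jv u) 0
        have f2 := dir_deriv2 hF y (jw k) (jw k') 0
        have f3 := dir_deriv2 hg y (jw k) (jv u) 0
        have f4 := hasDerivAt_omega f1 f2
        have f5 := hasDerivAt_omega f3 (hasDerivAt_const (0 : ℝ) k')
        have f6 : (fun t : ℝ => omega (fderiv ℝ F (y + t • jw k) (jv u))
            (fderiv ℝ F (y + t • jw k) (jw k'))) =
            fun t => omega (fderiv ℝ g (y + t • jw k) (jv u)) k' := funext fun t => hM _ _ _
        rw [f6] at f4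
        have f7 := f4.unique f5
        simpa [omega_zero_right] using f7
      have m1 := hMd h h'
      have m2 := hMd h' h
      rw [second_symm hF y (jv u) (jw h), second_symm hF y (jv u) (jw h'),
        second_symm hg y (jv u) (jw h), second_symm hg y (jv u) (jw h'), ← m1, ← m2,
        second_symm hF y (jw h') (jw h),
        omega_swap (fderiv ℝ F y (jw h)) (fderiv ℝ (fderiv ℝ F) y (jw h') (jv u))]
      ring
    · intro z hz
      have hopen : {z : E (m + n) | R < ‖bv z‖} ∈ 𝓝 z :=
        (isOpen_lt continuous_const bv.continuous.norm).mem_nhds hz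
      have f1 : F =ᶠ[𝓝 z] bv := by
        filter_upwards [hopen] with w hw using hfarF w hw
      have f2 : g =ᶠ[𝓝 z] fun _ => 0 := by
        filter_upwards [hopen] with w hw using hfarg w hw
      show omega (fderiv ℝ F z (jw h)) (fderiv ℝ F z (jw h')) -
        omega (fderiv ℝ g z (jw h)) h' + omega (fderiv ℝ g z (jw h')) h = 0
      rw [f1.fderiv_eq, f2.fderiv_eq, ContinuousLinearMap.fderiv, fderiv_fun_const]
      simp [omega_zero_left]
  -- the general case
  have ha : a = jw (bw a) + jv (bv a) := (eta2 a).symm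
  have hb : b = jw (bw b) + jv (bv b) := (eta2 b).symm
  have e1 := hbb z (bw a) (bw b)
  have e2 := hM z (bv a) (bw b)
  have e3 := hM z (bv b) (bw a)
  have e4 := hff z (bv a) (bv b)
  have e5 := omega_swap (fderiv ℝ F z (jw (bw a))) (fderiv ℝ F z (jv (bv b)))
  have e6 : fderiv ℝ F z a = fderiv ℝ F z (jw (bw a)) + fderiv ℝ F z (jv (bv a)) := by
    conv_lhs => rw [ha]
    rw [map_add]
  have e7 : fderiv ℝ F z b = fderiv ℝ F z (jw (bw b)) + fderiv ℝ F z (jv (bv b)) := by
    conv_lhs => rw [hb]
    rw [map_add]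
  have e8 : fderiv ℝ g z a = fderiv ℝ g z (jw (bw a)) + fderiv ℝ g z (jv (bv a)) := by
    conv_lhs => rw [ha]
    rw [map_add]
  have e9 : fderiv ℝ g z b = fderiv ℝ g z (jw (bw b)) + fderiv ℝ g z (jv (bv b)) := by
    conv_lhs => rw [hb]
    rw [map_add]
  rw [e6, e7, e8, e9]
  simp only [omega_add_left, omega_add_right]
  linarith

/-- **Existence of the generating function.** -/
theorem exists_gen (hn : 0 < n) [FiniteDimensional ℝ Q] {R : ℝ} (hR : 0 ≤ R)
    {T : Q × E m → SympCt n} (hT : TFam R T) : ∃ g : Q → E (m + n) → E m, Gen R T g := by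
  have : CompleteSpace Q := FiniteDimensional.complete ℝ Q
  let ep : Fin m × Fin 2 → E m := fun p => EuclideanSpace.single p (1 : ℝ)
  let S : Fin m × Fin 2 → ℝ × (Q × E m) → SympCt n := fun p r => T (r.2.1, r.2.2 + r.1 • ep p)
  have hS : ∀ p, IsSmoothFamily (S p) := fun p =>
    hT.smooth.comp (f := fun r : ℝ × (Q × E m) => (r.2.1, r.2.2 + r.1 • ep p))
      ((contDiff_fst.comp contDiff_snd).prodMk
      ((contDiff_snd.comp contDiff_snd).add (contDiff_fst.smul contDiff_const)))
  choose Y hYs hYd hYsp hY0 using fun p => exists_velocity (hS p)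
  have hYR : ∀ p r v, R < ‖v‖ → Y p (r, v) = 0 := by
    rintro p ⟨u, r⟩ v hv
    refine hY0 p r v (fun u => hT.supp _ v ?_) u
    rw [mem_closedBall_zero_iff, not_le]
    exact hv
  choose K hKs hKX hKR hK0 using fun p => exists_ham hn (hYs p) (hYsp p) hR (hYR p)
  let γ : Fin m × Fin 2 → Q → E (m + n) → ℝ := fun p q z => K p ((0, (q, bw z)), hat T q z)
  have hγs : ∀ p, ContDiff ℝ ∞ (fun r : Q × E (m + n) => γ p r.1 r.2) := by
    intro p
    have h1 : ContDiff ℝ ∞ (fun r : Q × E (m + n) =>
        (((0 : ℝ), (r.1, bw r.2)), hat T r.1 r.2)) :=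
      (contDiff_const.prodMk (contDiff_fst.prodMk (bw.contDiff.comp contDiff_snd))).prodMk
        (hat_smooth hT.smooth)
    exact (hKs p).comp h1
  let L : Q → E (m + n) → (E m →L[ℝ] ℝ) := fun q z => ∑ p, γ p q z • EuclideanSpace.proj p
  have hLs : ContDiff ℝ ∞ (fun r : Q × E (m + n) => L r.1 r.2) :=
    ContDiff.sum fun p _ => (hγs p).smul contDiff_const
  have hLe : ∀ q z p, L q z (ep p) = γ p q z := by
    intro q z p
    show (∑ p', γ p' q z • EuclideanSpace.proj p') (EuclideanSpace.single p (1 : ℝ)) = _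
    rw [sum_apply]
    simp
  let g : Q → E (m + n) → E m := fun q z => -XH (L q z)
  have hgs : ContDiff ℝ ∞ (fun r : Q × E (m + n) => g r.1 r.2) := (XH.contDiff.comp hLs).neg
  have hge : ∀ q z p, omega (g q z) (ep p) = γ p q z := by
    intro q z p
    show omega (-XH (L q z)) (ep p) = _
    rw [omega_neg_left, omega_XH, neg_neg, hLe]
  have hg0 : ∀ q z, (∀ p, γ p q z = 0) → g q z = 0 := by
    intro q z h
    have h1 : L q z = 0 := by
      show (∑ p', γ p' q z • EuclideanSpace.proj p') = 0
      exact Finset.sum_eq_zero fun p _ => by rw [h p, zero_smul]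
    show -XH (L q z) = 0
    rw [h1, map_zero, neg_zero]
  have hfarv : ∀ q z, R < ‖bv z‖ → g q z = 0 := by
    intro q z hz
    refine hg0 q z fun p => ?_
    show K p ((0, (q, bw z)), hat T q z) = 0
    rw [hat_far_v hT hz]
    exact hKR p _ _ hz
  have hT0 : ∀ p q w, S p (0, (q, w)) = T (q, w) := by
    intro p q w
    show T (q, w + (0 : ℝ) • ep p) = T (q, w)
    rw [zero_smul, add_zero]
  -- the derivative in the direction of the base
  have hbase : ∀ q z p, fderiv ℝ (hat T q) z (jw (ep p)) = Y p ((0, (q, bw z)), hat T q z) := by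
    intro q z p
    have h1 := dir_deriv ((hat_slice hT.smooth q).differentiable (by simp)) z (jw (ep p)) 0
    rw [zero_smul, add_zero] at h1
    have h2 := hYd p 0 (q, bw z) (bv z)
    rw [hT0] at h2
    have h3 : (fun t : ℝ => hat T q (z + t • jw (ep p))) =
        fun t => (S p (t, (q, bw z))).map (bv z) := by
      funext t
      unfold hat
      simp only [map_add, map_smul, bw_jw, bv_jw, smul_zero, add_zero]
      rfl
    rw [h3] at h1
    exact h1.unique h2
  refine ⟨g, hgs, fun q z hz => ?_, hfarv, fun q z a b => ?_⟩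
  · refine hg0 q z fun p => ?_
    refine hK0 p (0, (q, bw z)) (fun v => ?_) _
    -- the velocity vanishes
    set z' : E (m + n) := jw (bw z) + jv v with hz'
    have hbw : bw z' = bw z := by simp [hz']
    have hbv : bv z' = v := by simp [hz']
    have h1 := hbase q z' p
    rw [hbw, hat_far_w hT (by rw [hbw]; exact hz.le), hbv] at h1
    rw [← h1]
    have hopen : {z : E (m + n) | R < ‖bw z‖} ∈ 𝓝 z' :=
      (isOpen_lt continuous_const bw.continuous.norm).mem_nhds (by
        show R < ‖bw z'‖
        rw [hbw]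
        exact hz)
    have f1 : hat T q =ᶠ[𝓝 z'] bv := by
      filter_upwards [hopen] with w hw using hat_far_w hT (le_of_lt hw)
    rw [f1.fderiv_eq, ContinuousLinearMap.fderiv]
    simp
  · refine eq_of_mixed hn (hat_slice hT.smooth q) (gen_slice hgs q) (fun z u u' =>
      hat_fib_fib hT.smooth q z u u') ?_ (fun z hz => hat_far_v hT hz) (fun z hz => hfarv q z hz)
      z a b
    intro z u h
    -- the case of basis vectors
    have key : ∀ p, omega (fderiv ℝ (hat T q) z (jv u)) (fderiv ℝ (hat T q) z (jw (ep p))) =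
        omega (fderiv ℝ (g q) z (jv u)) (ep p) := by
      intro p
      have h1 : HasDerivAt (fun t : ℝ => γ p q (z + t • jv u))
          (omega (fderiv ℝ (g q) z (jv u)) (ep p)) 0 := by
        have h2 := dir_deriv ((gen_slice hgs q).differentiable (by simp)) z (jv u) 0
        rw [zero_smul, add_zero] at h2
        have h3 := hasDerivAt_omega h2 (hasDerivAt_const (0 : ℝ) (ep p))
        rw [omega_zero_right, add_zero] at h3
        have h4 : (fun t : ℝ => omega (g q (z + t • jv u)) (ep p)) =
            fun t => γ p q (z + t • jv u) := funext fun t => hge _ _ _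
        rw [h4] at h3
        exact h3
      have h5 : HasDerivAt (fun t : ℝ => γ p q (z + t • jv u))
          (fderiv ℝ (fun v => K p ((0, (q, bw z)), v)) (hat T q z)
            (fderiv ℝ (hat T q) z (jv u))) 0 := by
        have h6 := dir_deriv ((hat_slice hT.smooth q).differentiable (by simp)) z (jv u) 0
        rw [zero_smul, add_zero] at h6
        have h7 : Differentiable ℝ (fun v => K p ((0, (q, bw z)), v)) :=
          ContDiff.differentiable (n := ∞) ((hKs p).comp (contDiff_const.prodMk contDiff_id))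
            (by simp)
        have h8 : HasFDerivAt (fun v => K p ((0, (q, bw z)), v))
            (fderiv ℝ (fun v => K p ((0, (q, bw z)), v)) (hat T q z))
            (hat T q (z + (0 : ℝ) • jv u)) := by
          rw [zero_smul, add_zero]
          exact (h7 _).hasFDerivAt
        have h9 := h8.comp_hasDerivAt (0 : ℝ) h6
        have h10 : (fun t : ℝ => γ p q (z + t • jv u)) = (fun v => K p ((0, (q, bw z)), v)) ∘
            fun t : ℝ => hat T q (z + t • jv u) := by
          funext t
          show K p ((0, (q, bw (z + t • jv u))), hat T q (z + t • jv u)) = _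
          simp only [map_add, map_smul, bw_jv, smul_zero, add_zero]
          rfl
        rw [h10]
        exact h9
      rw [← h5.unique h1, hbase, ← hKX p, omega_swap, omega_XH, neg_neg]
    have hsum : h = ∑ p, h p • ep p := by
      ext r
      simp [ep, Pi.single_apply]
    have e1 : ∀ (x : E n), omega x (fderiv ℝ (hat T q) z (jw h)) =
        ∑ p, h p * omega x (fderiv ℝ (hat T q) z (jw (ep p))) := by
      intro x
      conv_lhs => rw [hsum]
      rw [map_sum, map_sum, ← om_apply, map_sum]
      refine Finset.sum_congr rfl fun p _ => ?_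
      rw [map_smul, map_smul, map_smul, smul_eq_mul, om_apply]
    have e2 : ∀ (x : E m), omega x h = ∑ p, h p * omega x (ep p) := by
      intro x
      conv_lhs => rw [hsum]
      rw [← om_apply, map_sum]
      refine Finset.sum_congr rfl fun p _ => ?_
      rw [map_smul, smul_eq_mul, om_apply]
    rw [e1, e2]
    exact Finset.sum_congr rfl fun p _ => by rw [key p]

/-- **Uniqueness of the generating function.** -/
theorem Gen.unique (hn : 0 < n) {R R' : ℝ} {T T' : Q × E m → SympCt n}
    {g g' : Q → E (m + n) → E m} (hg : Gen R T g) (hg' : Gen R' T' g') {q : Q}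
    (hT : hat T q = hat T' q) (z : E (m + n)) : g q z = g' q z := by
  have hd : ∀ z u, fderiv ℝ (g q) z (jv u) = fderiv ℝ (g' q) z (jv u) := by
    intro z u
    refine omega_left_cancel fun h => ?_
    have h1 := hg.eq q z (jv u) (jw h)
    have h2 := hg'.eq q z (jv u) (jw h)
    simp only [bw_jv, bw_jw, bv_jw, omega_zero_right] at h1 h2
    rw [hT, h2] at h1
    linarith
  have key : ∀ h : E m, omega (g q z - g' q z) h = 0 := by
    intro h
    refine zero_of_fib hn (c := fun z => omega (g q z - g' q z) h) (R := max R R') ?_ ?_ z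
    · intro z u t
      have h1 := dir_deriv ((gen_slice hg.smooth q).differentiable (by simp)) z (jv u) t
      have h2 := dir_deriv ((gen_slice hg'.smooth q).differentiable (by simp)) z (jv u) t
      have h3 := hasDerivAt_omega (h1.sub h2) (hasDerivAt_const t h)
      refine h3.congr_deriv ?_
      rw [hd, sub_self, omega_zero_left, omega_zero_right, add_zero]
    · intro z hz
      show omega (g q z - g' q z) h = 0
      rw [hg.far_v q z ((le_max_left _ _).trans_lt hz),
        hg'.far_v q z ((le_max_right _ _).trans_lt hz), sub_self, omega_zero_left]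
  have h1 := omega_nondeg key
  rwa [sub_eq_zero] at h1

end Pool.Agent.H84.Blk
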