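import Pool.Agent.H84.Blk.Scale
import Pool.Agent.H84.Blk.Defs
import Pool.Agent.H84.PP.Comm

/-!
# Symplectomorphisms with a good block and iterated loops
-/

set_option autoImplicit false
set_option linter.unusedSectionVars false

open Set Filter Topology Metric Function
open scoped ContDiff NNReal

noncomputable section

namespace Pool.Agent.H84.Blk

open Pool.Agent.X277.Sy Pool.Agent.H84.PP

variable {k m n : ℕ}

/-! ### Translation of the definitions -/

theorem lastVec_eq (z : E (m + n)) : lastVec z = bv z := rfl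

theorem mixVec_eq (z z' : E (m + n)) : mixVec z z' = cx (bw z') + cy (bw z) := by
  ext ⟨i, j⟩
  fin_cases j
  · show z' (Fin.castAdd n i, 0) = cx (bw z') (i, 0) + cy (bw z) (i, 0)
    rw [cx_zero, cy_zero, add_zero]
    rfl
  · show z (Fin.castAdd n i, 1) = cx (bw z') (i, 1) + cy (bw z) (i, 1)
    rw [cx_one, cy_one, zero_add]
    rfl

theorem noNegBlock_iff (φ : SympCt (m + n)) : NoNegBlock m n φ ↔ GoodBlock φ.map := by
  constructor
  · intro h z c a hc ha hD
    have h1 := h z (jw a) c hc (fun i j => ?_) (fun i hi => ?_)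
    · have := congrArg bw h1
      rwa [bw_jw, map_zero] at this
    · refine Fin.addCases (fun i hij => ?_) (fun i _ => jw_right a i j) i
      rcases hij with hij | hij
      · exact absurd i.2 (not_lt.2 hij)
      · rw [jw_left, hij, ← ha]
        exact cx_one a i
    · obtain ⟨i, rfl⟩ : ∃ i' : Fin m, i = Fin.castAdd n i' := ⟨⟨i, hi⟩, rfl⟩
      have h2 := congrArg (fun w : E m => w (i, 0)) hD
      simp only at h2
      rw [cx_zero, bw_apply] at h2
      rw [h2, jw_left]
      rfl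
  · intro h z a c hc ha hD
    have h1 : bv a = 0 := by
      ext ⟨i, j⟩
      exact ha _ j (Or.inl (by simp))
    have h2 : cx (bw a) = bw a := by
      ext ⟨i, j⟩
      fin_cases j
      · rfl
      · show (0 : ℝ) = a (Fin.castAdd n i, 1)
        rw [ha _ 1 (Or.inr rfl)]
    have h3 : a = jw (bw a) := by
      conv_lhs => rw [← eta2 a]
      rw [h1, map_zero, add_zero]
    have h4 : bw a = 0 := h z c (bw a) hc h2 (by
      rw [← h3]
      ext ⟨i, j⟩
      fin_cases j
      · show fderiv ℝ φ.map z a (Fin.castAdd n i, 0) = c * a (Fin.castAdd n i, 0)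
        exact hD _ (by simp)
      · show (0 : ℝ) = c * a (Fin.castAdd n i, 1)
        rw [ha _ 1 (Or.inr rfl), mul_zero])
    rw [h3, h4, map_zero]

theorem isSlices_iff (T : Loops k m n) (φ : Spheroid k (m + n)) :
    IsSlices T φ ↔ ∀ s, IsSliceAt (fun w => T.fam (s, w)) (φ.fam s).map := by
  constructor
  · intro h s z
    have := h s z
    rw [mixVec_eq] at this
    exact this
  · intro h s z
    rw [mixVec_eq]
    exact h s z

/-! ### Slices -/

theorem Data.unique {Q : Type} [NormedAddCommGroup Q] [NormedSpace ℝ Q] {R : ℝ}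
    {φ : Q → SympCt (m + n)} {T : Q × E m → SympCt n} {g : Q → E (m + n) → E m}
    (d : Data R φ T g) {q : Q} {T' : E m → SympCt n} (h : IsSliceAt T' (φ q).map) (w : E m) :
    T (q, w) = T' w := by
  apply SympCt.ext
  funext v
  set z : E (m + n) := jw w + jv v with hz
  have h3 := h (Amap (g q) z)
  have h4 := d.slice q (Amap (g q) z)
  have h5 : cx (bw ((φ q).map (Amap (g q) z))) + cy (bw (Amap (g q) z)) = w := by
    rw [d.comp q z]
    unfold Amap Cmap
    simp only [map_add, map_sub, bw_jw, bw_jv, add_zero, cx_cy, cy_cx, sub_zero]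
    rw [hz]
    simp [cx_add_cy]
  have h6 : bv (Amap (g q) z) = v := by
    unfold Amap
    rw [hz]
    simp
  rw [h5, h6] at h3
  simp only at h4
  rw [h5, h6] at h4
  rw [h3, h4]

theorem slice_one : IsSliceAt (fun _ : E m => (1 : SympCt n)) (1 : SympCt (m + n)).map :=
  fun _ => rfl

theorem goodBlock_one : GoodBlock (1 : SympCt (m + n)).map := by
  intro z c h hc hh hD
  have h1 : fderiv ℝ (1 : SympCt (m + n)).map z (jw h) = jw h := by
    show fderiv ℝ id z (jw h) = jw h
    rw [fderiv_id]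
    rfl
  rw [h1, bw_jw, hh] at hD
  have h2 : (1 - c) • h = 0 := by
    rw [sub_smul, one_smul, ← hD, sub_self]
  exact (smul_eq_zero.1 h2).resolve_left (by linarith)

theorem exists_slices (hn : 0 < n) (φ : Spheroid k (m + n))
    (hφ : ∀ s, NoNegBlock m n (φ.fam s)) : ∃ T : Loops k m n, IsSlices T φ := by
  obtain ⟨r, h1, h2⟩ := φ.bounded
  obtain ⟨T, g, d⟩ := extract hn (le_max_right r 0) φ.smooth
    (fun s => supp_mono (closedBall_subset_closedBall (le_max_left _ _)) (h2 s))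
    (fun s => (noNegBlock_iff _).1 (hφ s))
  refine ⟨⟨T, d.tfam.smooth, 2 * max r 0 + 1, fun s w h => ?_, d.tfam.supp⟩,
    (isSlices_iff _ _).2 d.slice⟩
  rcases h with h | h
  · have h3 : φ.fam s = 1 := h1 s (by
      have := le_max_left r 0
      have := le_max_right r 0
      linarith)
    refine d.unique (T' := fun _ => 1) ?_ w
    rw [h3]
    exact slice_one
  · exact d.tfam.far s w h

theorem slices_unique (hn : 0 < n) {φ : Spheroid k (m + n)}
    (hφ : ∀ s, NoNegBlock m n (φ.fam s)) {T T' : Loops k m n} (h : IsSlices T φ)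
    (h' : IsSlices T' φ) : T = T' := by
  obtain ⟨r, h1, h2⟩ := φ.bounded
  obtain ⟨T0, g, d⟩ := extract hn (le_max_right r 0) φ.smooth
    (fun s => supp_mono (closedBall_subset_closedBall (le_max_left _ _)) (h2 s))
    (fun s => (noNegBlock_iff _).1 (hφ s))
  apply Loops.ext
  funext ⟨s, w⟩
  rw [← d.unique ((isSlices_iff _ _).1 h s) w, ← d.unique ((isSlices_iff _ _).1 h' s) w]

theorem sph_unique (hn : 0 < n) {φ ψ : Spheroid k (m + n)}
    (hφ : ∀ s, NoNegBlock m n (φ.fam s)) (hψ : ∀ s, NoNegBlock m n (ψ.fam s))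
    {T : Loops k m n} (h : IsSlices T φ) (h' : IsSlices T ψ) : φ = ψ :=
  spheroid_ext (funext fun s => slice_unique hn ((noNegBlock_iff _).1 (hφ s))
    ((noNegBlock_iff _).1 (hψ s)) ((isSlices_iff _ _).1 h s) ((isSlices_iff _ _).1 h' s))

theorem loopHomotopic_of (hn : 0 < n) {φ ψ : Spheroid k (m + n)}
    {T T' : Loops k m n} (h : IsSlices T φ) (h' : IsSlices T' ψ) (hh : BlockHomotopic φ ψ) :
    LoopHomotopic T T' := by
  obtain ⟨K, hK, F, F1, F2, F3, ⟨r, F4⟩, F5, F6⟩ := hh
  obtain ⟨r', hr'⟩ := hK.isBounded.subset_closedBall (0 : E (m + n))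
  have hr0 := le_max_right r' 0
  obtain ⟨T0, g, d⟩ := extract hn hr0 F1
    (fun s => supp_mono (hr'.trans (closedBall_subset_closedBall (le_max_left _ _))) (F5 s))
    (fun s => (noNegBlock_iff _).1 (F6 s))
  refine ⟨T0, d.tfam.smooth, fun s w => d.unique (q := (0, s)) (T' := fun w => T.fam (s, w)) ?_ w,
    fun s w => d.unique (q := (1, s)) (T' := fun w => T'.fam (s, w)) ?_ w,
    max r (2 * max r' 0 + 1), fun t s w hsw => ?_, fun p => ?_⟩
  · rw [F2]
    exact (isSlices_iff _ _).1 h s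
  · rw [F3]
    exact (isSlices_iff _ _).1 h' s
  · rcases hsw with hs | hw
    · refine d.unique (T' := fun _ => 1) ?_ w
      rw [F4 t s ((le_max_left _ _).trans hs)]
      exact slice_one
    · exact d.tfam.far _ w ((le_max_right _ _).trans hw)
  · exact supp_mono (closedBall_subset_closedBall (le_max_right _ _)) (d.tfam.supp p)

/-- bounds for families which are trivial for large parameters -/
theorem bound_sph {Q : Type} [NormedAddCommGroup Q] [NormedSpace ℝ Q] (hn : 0 < n) {R : ℝ}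
    {T : Q × E m → SympCt n}
    {g : Q → E (m + n) → E m} (hg : Gen R T g) {C : Set Q} (hC : IsCompact C)
    {D : Set Q} (hD : ∀ q ∈ D, q ∈ C ∨ ∀ w, T (q, w) = 1) : ∃ M : ℝ, 0 ≤ M ∧ ∀ q ∈ D, ∀ z h,
      ‖cx (fderiv ℝ (g q) z (jw h))‖ ≤ M * ‖h‖ := by
  obtain ⟨M, hM0, hM⟩ := hg.bound hC
  refine ⟨M, hM0, fun q hq z h => ?_⟩
  rcases hD q hq with h1 | h1
  · exact hM q h1 z h
  · have h2 : hat T q = hat (fun _ : Q × E m => (1 : SympCt n)) q := by
      funext z
      unfold hat
      rw [h1]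
    have h3 : g q = fun _ => 0 := funext fun z => Gen.unique hn hg (gen_one (Q := Q) R) h2 z
    rw [h3, fderiv_fun_const]
    simp only [Pi.zero_apply, zero_apply, map_zero, norm_zero]
    positivity


/-- the data of a loop -/
theorem Loops.data (T : Loops k m n) : ∃ r : ℝ, 0 ≤ r ∧ TFam r T.fam ∧
    ∀ s, r ≤ ‖s‖ → ∀ w, T.fam (s, w) = 1 := by
  obtain ⟨r, h1, h2⟩ := T.bounded
  refine ⟨max r 0, le_max_right _ _, ⟨T.smooth, fun p => supp_mono
    (closedBall_subset_closedBall (le_max_left _ _)) (h2 p), fun s w hw =>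
      h1 s w (Or.inr ((le_max_left _ _).trans hw))⟩, fun s hs w =>
      h1 s w (Or.inl ((le_max_left _ _).trans hs))⟩

/-- **Realization.** -/
theorem exists_real (hn : 0 < n) (T : Loops k m n) : ∃ (φ : Spheroid k (m + n)) (T' : Loops k m n),
    (∀ s, NoNegBlock m n (φ.fam s)) ∧ IsSlices T' φ ∧ LoopHomotopic T T' := by
  obtain ⟨r, hr0, hT, hfar⟩ := T.data
  obtain ⟨g, hg⟩ := exists_gen hn hr0 hT
  obtain ⟨M, hM0, hM⟩ := bound_sph hn hg (isCompact_closedBall (0 : EuclideanSpace ℝ (Fin k)) r)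
    (D := univ) (fun s _ => by
      rcases le_total ‖s‖ r with h | h
      · exact Or.inl (by simpa using h)
      · exact Or.inr (hfar s h))
  set ε : ℝ := 1 / (M + 1) with hε
  have hM1 : 0 < M + 1 := by linarith
  have hε0 : 0 < ε := by positivity
  have hε1 : ε ≤ 1 := by
    rw [hε, div_le_one hM1]
    linarith
  have hεM : ε * M < 1 := by
    rw [hε, one_div, inv_mul_lt_iff₀ hM1]
    linarith
  have hT' := slow_tfam (ε := fun _ : EuclideanSpace ℝ (Fin k) => ε) (p := id) contDiff_const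
    contDiff_id hε0 (fun _ => le_rfl) (fun _ => hε1) hr0 hT
  have hg' := slow_gen (ε := fun _ : EuclideanSpace ℝ (Fin k) => ε) (p := id) contDiff_const
    contDiff_id hε0 (fun _ => le_rfl) (fun _ => hε1) hr0 hT hg
  obtain ⟨φ, φ1, φ2, φ3, φ4, φ5⟩ := reconstruct hn hT' hg' (fun s =>
    slow_small (p := id) (fam_diff hg.smooth _) (fun z h => hM s (mem_univ _) z h) hε0.le hεM)
  have h0 : 0 ≤ 2 * r / ε := by positivity
  set R := r + 2 * r / ε with hR
  have hfar' : ∀ s, R ≤ ‖s‖ → ∀ w, slowT (fun _ => ε) id T.fam (s, w) = 1 := fun s hs w =>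
    hfar s (by linarith) _
  refine ⟨⟨φ, φ1, 2 * R, fun s hs => φ5 s (hfar' s (by linarith)), φ2⟩,
    ⟨slowT (fun _ => ε) id T.fam, hT'.smooth, R, fun s w h => ?_, hT'.supp⟩,
    fun s => (noNegBlock_iff _).2 (φ3 s), (isSlices_iff _ _).2 φ4, ?_⟩
  · rcases h with h | h
    · exact hfar' s h w
    · exact hT'.far s w h
  · let σ : ℝ → ℝ := Real.smoothTransition
    have hσ : ContDiff ℝ ∞ σ := Real.smoothTransition.contDiff
    let a : ℝ × EuclideanSpace ℝ (Fin k) → ℝ := fun q => 1 - (1 - ε) * σ q.1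
    have ha : ContDiff ℝ ∞ a := contDiff_const.sub (contDiff_const.mul (hσ.comp contDiff_fst))
    have ha0 : ∀ q, ε ≤ a q := by
      intro q
      have h1 : σ q.1 ≤ 1 := Real.smoothTransition.le_one _
      show ε ≤ 1 - (1 - ε) * σ q.1
      nlinarith
    have ha1 : ∀ q, a q ≤ 1 := by
      intro q
      have h1 : 0 ≤ σ q.1 := Real.smoothTransition.nonneg _
      show 1 - (1 - ε) * σ q.1 ≤ 1
      nlinarith
    have hF := slow_tfam (ε := a) (p := Prod.snd) ha contDiff_snd hε0 ha0 ha1 hr0 hT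
    refine ⟨slowT a Prod.snd T.fam, hF.smooth, fun s w => ?_, fun s w => ?_, R,
      fun t s w h => ?_, hF.supp⟩
    · show T.fam (s, dil (1 - (1 - ε) * Real.smoothTransition 0) w) = T.fam (s, w)
      rw [Real.smoothTransition.zero, mul_zero, sub_zero, dil_one]
    · show T.fam (s, dil (1 - (1 - ε) * Real.smoothTransition 1) w) = T.fam (s, dil ε w)
      rw [Real.smoothTransition.one, mul_one, sub_sub_cancel]
    · rcases h with h | h
      · exact hfar s (by linarith) _
      · exact hF.far (t, s) w h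

/-- **Homotopies.** -/
theorem blockHomotopic_of (hn : 0 < n) {φ ψ : Spheroid k (m + n)}
    (hφ : ∀ s, NoNegBlock m n (φ.fam s)) (hψ : ∀ s, NoNegBlock m n (ψ.fam s))
    {T T' : Loops k m n} (h : IsSlices T φ) (h' : IsSlices T' ψ) (hh : LoopHomotopic T T') :
    BlockHomotopic φ ψ := by
  obtain ⟨F, F1, F2, F3, r0, F4, F5⟩ := hh
  set r : ℝ := max r0 0 with hr
  have hr0 : 0 ≤ r := le_max_right _ _
  have hrr : r0 ≤ r := le_max_left _ _
  have hF : TFam r F := ⟨F1, fun p => supp_mono (closedBall_subset_closedBall hrr) (F5 p),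
    fun q w hw => F4 q.1 q.2 w (Or.inr (hrr.trans hw))⟩
  have hfar : ∀ t s, r ≤ ‖s‖ → ∀ w, F ((t, s), w) = 1 := fun t s hs w =>
    F4 t s w (Or.inl (hrr.trans hs))
  obtain ⟨g, hg⟩ := exists_gen hn hr0 hF
  obtain ⟨M, hM0, hM⟩ := bound_sph hn hg ((isCompact_Icc (a := (0 : ℝ)) (b := 1)).prod
    (isCompact_closedBall (0 : EuclideanSpace ℝ (Fin k)) r))
    (D := Icc (0 : ℝ) 1 ×ˢ univ) (by
      rintro ⟨t, s⟩ ⟨ht, -⟩
      rcases le_total ‖s‖ r with h | h
      · exact Or.inl ⟨ht, by simpa using h⟩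
      · exact Or.inr (hfar t s h))
  set ε : ℝ := 1 / (M + 1) with hε
  have hM1 : 0 < M + 1 := by linarith
  have hε0 : 0 < ε := by positivity
  have hε1 : ε ≤ 1 := by
    rw [hε, div_le_one hM1]
    linarith
  have hεM : ε * M < 1 := by
    rw [hε, one_div, inv_mul_lt_iff₀ hM1]
    linarith
  let σ : ℝ → ℝ := Real.smoothTransition
  have hσ : ContDiff ℝ ∞ σ := Real.smoothTransition.contDiff
  have hσ0 : ∀ t, 0 ≤ σ t := Real.smoothTransition.nonneg
  have hσ1 : ∀ t, σ t ≤ 1 := Real.smoothTransition.le_one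
  have hσz : ∀ t, t ≤ 0 → σ t = 0 := fun t ht => Real.smoothTransition.zero_of_nonpos ht
  have hσo : ∀ t, 1 ≤ t → σ t = 1 := fun t ht => Real.smoothTransition.one_of_one_le ht
  let Q := ℝ × EuclideanSpace ℝ (Fin k)
  let p : Q → Q := fun q => (σ (3 * q.1 - 1), q.2)
  let a : Q → ℝ := fun q => 1 - (1 - ε) * (σ (3 * q.1) - σ (3 * q.1 - 2))
  have hp : ContDiff ℝ ∞ p :=
    (hσ.comp ((contDiff_const.mul contDiff_fst).sub contDiff_const)).prodMk contDiff_snd
  have ha : ContDiff ℝ ∞ a := contDiff_const.sub (contDiff_const.mul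
    ((hσ.comp (contDiff_const.mul contDiff_fst)).sub
      (hσ.comp ((contDiff_const.mul contDiff_fst).sub contDiff_const))))
  have hdiff : ∀ t : ℝ, 0 ≤ σ (3 * t) - σ (3 * t - 2) ∧ σ (3 * t) - σ (3 * t - 2) ≤ 1 := by
    intro t
    constructor
    · rcases le_total (3 * t - 2) 0 with h | h
      · rw [hσz _ h, sub_zero]
        exact hσ0 _
      · rw [hσo (3 * t) (by linarith)]
        linarith [hσ1 (3 * t - 2)]
    · linarith [hσ0 (3 * t - 2), hσ1 (3 * t)]
  have ha0 : ∀ q, ε ≤ a q := by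
    intro q
    have h1 := (hdiff q.1).2
    show ε ≤ 1 - (1 - ε) * (σ (3 * q.1) - σ (3 * q.1 - 2))
    nlinarith
  have ha1 : ∀ q, a q ≤ 1 := by
    intro q
    have h1 := (hdiff q.1).1
    show 1 - (1 - ε) * (σ (3 * q.1) - σ (3 * q.1 - 2)) ≤ 1
    nlinarith
  have hT' := slow_tfam (ε := a) (p := p) ha hp hε0 ha0 ha1 hr0 hF
  have hg' := slow_gen (ε := a) (p := p) ha hp hε0 ha0 ha1 hr0 hF hg
  -- the ends
  have hend : ∀ (χ : Spheroid k (m + n)) (T₁ : Loops k m n) (t : ℝ),
      (∀ s, NoNegBlock m n (χ.fam s)) → IsSlices T₁ χ →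
      (∀ s w, F ((t, s), w) = T₁.fam (s, w)) → ∀ s, GoodGen (g (t, s)) := by
    intro χ T₁ t hχ hT₁ hFt s
    obtain ⟨rχ, c1, c2⟩ := χ.bounded
    obtain ⟨T0, g0, d⟩ := extract hn (le_max_right rχ 0) χ.smooth
      (fun s => supp_mono (closedBall_subset_closedBall (le_max_left _ _)) (c2 s))
      (fun s => (noNegBlock_iff _).1 (hχ s))
    have h1 : g (t, s) = g0 s := by
      funext z
      have h2 : ∀ w, T0 (s, w) = F ((t, s), w) := fun w => by
        rw [hFt, d.unique ((isSlices_iff _ _).1 hT₁ s) w]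
      -- compare the generating functions
      let ι : EuclideanSpace ℝ (Fin k) → Q := fun s => (t, s)
      have hι : ContDiff ℝ ∞ ι := contDiff_const.prodMk contDiff_id
      have e1 := slow_gen (ε := fun _ : EuclideanSpace ℝ (Fin k) => (1 : ℝ)) (p := ι)
        contDiff_const hι one_pos (fun _ => le_rfl) (fun _ => le_rfl) hr0 hF hg
      have e2 := Gen.unique hn e1 d.gen (q := s) (by
        funext z
        rw [hat_slowT]
        unfold hat
        rw [bw_Dil, bv_Dil, dil_one, h2]) z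
      rw [← e2]
      show g (t, s) z = dil' 1 (g (t, s) (Dil 1 z))
      unfold dil' Dil
      rw [dil_one, eta2, one_smul, cx_add_cy]
    rw [h1]
    exact d.good s
  have hgood : ∀ q, GoodGen (slowG a p g q) := by
    rintro ⟨t, s⟩
    have hgd : ∀ q, Differentiable ℝ (g q) := fun q => fam_diff hg.smooth q
    have hpos : 0 < a (t, s) := hε0.trans_le (ha0 _)
    rcases le_total t (1 / 3) with h1 | h1
    · refine slow_good (hgd _) ?_ hpos (ha1 _)
      show GoodGen (g (σ (3 * t - 1), s))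
      rw [hσz _ (by linarith)]
      exact hend φ T 0 hφ h F2 s
    · rcases le_total t (2 / 3) with h2 | h2
      · refine slow_small (hgd _) (fun z h => hM (p (t, s)) ⟨⟨hσ0 _, hσ1 _⟩, mem_univ _⟩ z h)
          hpos.le ?_
        show (1 - (1 - ε) * (σ (3 * t) - σ (3 * t - 2))) * M < 1
        rw [hσo (3 * t) (by linarith), hσz (3 * t - 2) (by linarith), sub_zero, mul_one,
          sub_sub_cancel]
        exact hεM
      · refine slow_good (hgd _) ?_ hpos (ha1 _)
        show GoodGen (g (σ (3 * t - 1), s))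
        rw [hσo _ (by linarith)]
        exact hend ψ T' 1 hψ h' F3 s
  obtain ⟨χ, χ1, χ2, χ3, χ4, χ5⟩ := reconstruct hn hT' hg' hgood
  refine ⟨closedBall 0 (2 * (r + 2 * r / ε)), isCompact_closedBall _ _, χ, χ1, fun s => ?_,
    fun s => ?_, ⟨r, fun t s hs => χ5 _ fun w => hfar _ s hs _⟩, χ2,
    fun q => (noNegBlock_iff _).2 (χ3 q)⟩
  · refine slice_unique hn (χ3 _) ((noNegBlock_iff _).1 (hφ s)) (χ4 (0, s)) ?_
    have h1 : (fun w => slowT a p F ((0, s), w)) = fun w => T.fam (s, w) := by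
      funext w
      show F ((σ (3 * 0 - 1), s), dil (1 - (1 - ε) * (σ (3 * 0) - σ (3 * 0 - 2))) w) = _
      rw [hσz (3 * 0 - 1) (by norm_num), hσz (3 * 0) (by norm_num), hσz (3 * 0 - 2) (by norm_num),
        sub_zero, mul_zero, sub_zero, dil_one, F2]
    rw [h1]
    exact (isSlices_iff _ _).1 h s
  · refine slice_unique hn (χ3 _) ((noNegBlock_iff _).1 (hψ s)) (χ4 (1, s)) ?_
    have h1 : (fun w => slowT a p F ((1, s), w)) = fun w => T'.fam (s, w) := by
      funext w
      show F ((σ (3 * 1 - 1), s), dil (1 - (1 - ε) * (σ (3 * 1) - σ (3 * 1 - 2))) w) = _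
      rw [hσo (3 * 1 - 1) (by norm_num), hσo (3 * 1) (by norm_num), hσo (3 * 1 - 2) (by norm_num),
        sub_self, mul_zero, sub_zero, dil_one, F3]
    rw [h1]
    exact (isSlices_iff _ _).1 h' s

/-! ### Loops and spheroids -/

/-- the identification of the parameter spaces -/
def eqv (k m : ℕ) : (EuclideanSpace ℝ (Fin k) × E m) ≃L[ℝ] EuclideanSpace ℝ (Fin (k + 2 * m)) :=
  ContinuousLinearEquiv.ofFinrankEq (by
    rw [Module.finrank_prod, finrank_euclideanSpace, finrank_euclideanSpace,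
      finrank_euclideanSpace]
    simp only [Fintype.card_prod, Fintype.card_fin]
    ring)

theorem eqv_bound (k m : ℕ) : ∃ c : ℝ, 0 ≤ c ∧ (∀ p, ‖eqv k m p‖ ≤ c * ‖p‖) ∧
    ∀ x, ‖(eqv k m).symm x‖ ≤ c * ‖x‖ := by
  refine ⟨max ‖(eqv k m : (EuclideanSpace ℝ (Fin k) × E m) →L[ℝ] EuclideanSpace ℝ (Fin (k + 2 * m)))‖
    ‖((eqv k m).symm : EuclideanSpace ℝ (Fin (k + 2 * m)) →L[ℝ] EuclideanSpace ℝ (Fin k) × E m)‖,
    le_max_of_le_left (norm_nonneg _), fun p => ?_, fun x => ?_⟩
  · refine ((eqv k m : (EuclideanSpace ℝ (Fin k) × E m) →L[ℝ]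
      EuclideanSpace ℝ (Fin (k + 2 * m))).le_opNorm p).trans ?_
    exact mul_le_mul_of_nonneg_right (le_max_left _ _) (norm_nonneg _)
  · refine (((eqv k m).symm : EuclideanSpace ℝ (Fin (k + 2 * m)) →L[ℝ]
      EuclideanSpace ℝ (Fin k) × E m).le_opNorm x).trans ?_
    exact mul_le_mul_of_nonneg_right (le_max_right _ _) (norm_nonneg _)

/-- far parameters -/
theorem far_pair {A B : Type} [NormedAddCommGroup A] [NormedAddCommGroup B] {r : ℝ} {p : A × B}
    (h : r ≤ ‖p‖) : r ≤ ‖p.1‖ ∨ r ≤ ‖p.2‖ := by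
  rw [Prod.norm_def] at h
  exact le_max_iff.1 h

/-- the spheroid of a loop -/
theorem exists_toSph (T : Loops k m n) : ∃ f : Spheroid (k + 2 * m) n,
    ∀ x, f.fam x = T.fam ((eqv k m).symm x) := by
  obtain ⟨r, h1, h2⟩ := T.bounded
  obtain ⟨c, hc0, hc1, hc2⟩ := eqv_bound k m
  refine ⟨⟨fun x => T.fam ((eqv k m).symm x), T.smooth.comp (eqv k m).symm.contDiff,
    max r (c * |r| + 1), fun x hx => ?_, fun x => ?_⟩, fun x => rfl⟩
  · have h3 : r ≤ ‖(eqv k m).symm x‖ := by
      by_contra hcon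
      push Not at hcon
      have h4 := hc1 ((eqv k m).symm x)
      rw [(eqv k m).apply_symm_apply] at h4
      have h5 : c * ‖(eqv k m).symm x‖ ≤ c * |r| :=
        mul_le_mul_of_nonneg_left (hcon.le.trans (le_abs_self r)) hc0
      linarith [(le_max_right r (c * |r| + 1)).trans hx]
    exact h1 ((eqv k m).symm x).1 ((eqv k m).symm x).2 (far_pair h3)
  · exact supp_mono (closedBall_subset_closedBall (le_max_left _ _)) (h2 _)

/-- the loop of a spheroid -/
theorem exists_toLoop (f : Spheroid (k + 2 * m) n) : ∃ T : Loops k m n,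
    ∀ x, f.fam x = T.fam ((eqv k m).symm x) := by
  obtain ⟨r, h1, h2⟩ := f.bounded
  obtain ⟨c, hc0, hc1, hc2⟩ := eqv_bound k m
  refine ⟨⟨fun p => f.fam (eqv k m p), f.smooth.comp (eqv k m).contDiff,
    max r (c * |r| + 1), fun s w hp => ?_, fun x => ?_⟩, fun x => ?_⟩
  · refine h1 _ ?_
    by_contra hcon
    push Not at hcon
    have h4 := hc2 (eqv k m (s, w))
    rw [(eqv k m).symm_apply_apply] at h4
    have h5 : c * ‖eqv k m (s, w)‖ ≤ c * |r| :=
      mul_le_mul_of_nonneg_left (hcon.le.trans (le_abs_self r)) hc0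
    have h6 : max r (c * |r| + 1) ≤ ‖(s, w)‖ := by
      rw [Prod.norm_def]
      rcases hp with hp | hp
      · exact hp.trans (le_max_left _ _)
      · exact hp.trans (le_max_right _ _)
    linarith [(le_max_right r (c * |r| + 1)).trans h6]
  · exact supp_mono (closedBall_subset_closedBall (le_max_left _ _)) (h2 _)
  · show f.fam x = f.fam (eqv k m ((eqv k m).symm x))
    rw [(eqv k m).apply_symm_apply]

theorem homotopic_of_loop {T T' : Loops k m n} (h : LoopHomotopic T T')
    {f f' : Spheroid (k + 2 * m) n} (hf : ∀ x, f.fam x = T.fam ((eqv k m).symm x))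
    (hf' : ∀ x, f'.fam x = T'.fam ((eqv k m).symm x)) : Homotopic f f' := by
  obtain ⟨F, F1, F2, F3, r, F4, F5⟩ := h
  obtain ⟨c, hc0, hc1, hc2⟩ := eqv_bound k m
  refine ⟨closedBall 0 r, isCompact_closedBall _ _,
    fun q => F ((q.1, ((eqv k m).symm q.2).1), ((eqv k m).symm q.2).2), ?_, fun x => ?_,
    fun x => ?_, ⟨c * |r| + 1, fun t x hx => ?_⟩, fun q => F5 _⟩
  · have h1 : ContDiff ℝ ∞ (fun q : ℝ × EuclideanSpace ℝ (Fin (k + 2 * m)) =>
        (((q.1, ((eqv k m).symm q.2).1), ((eqv k m).symm q.2).2) :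
          (ℝ × EuclideanSpace ℝ (Fin k)) × E m)) := by
      have h2 : ContDiff ℝ ∞ (fun q : ℝ × EuclideanSpace ℝ (Fin (k + 2 * m)) =>
        (eqv k m).symm q.2) := (eqv k m).symm.contDiff.comp contDiff_snd
      exact (contDiff_fst.prodMk (contDiff_fst.comp h2)).prodMk (contDiff_snd.comp h2)
    exact F1.comp h1
  · rw [hf]
    exact F2 _ _
  · rw [hf']
    exact F3 _ _
  · have h3 : r ≤ ‖(eqv k m).symm x‖ := by
      by_contra hcon
      push Not at hcon
      have h4 := hc1 ((eqv k m).symm x)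
      rw [(eqv k m).apply_symm_apply] at h4
      have h5 : c * ‖(eqv k m).symm x‖ ≤ c * |r| :=
        mul_le_mul_of_nonneg_left (hcon.le.trans (le_abs_self r)) hc0
      linarith
    exact F4 _ _ _ (far_pair h3)

theorem loop_of_homotopic {T T' : Loops k m n}
    {f f' : Spheroid (k + 2 * m) n} (hf : ∀ x, f.fam x = T.fam ((eqv k m).symm x))
    (hf' : ∀ x, f'.fam x = T'.fam ((eqv k m).symm x)) (h : Homotopic f f') :
    LoopHomotopic T T' := by
  obtain ⟨K, hK, F, F1, F2, F3, ⟨r, F4⟩, F5⟩ := h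
  obtain ⟨r', hr'⟩ := hK.isBounded.subset_closedBall (0 : E n)
  obtain ⟨c, hc0, hc1, hc2⟩ := eqv_bound k m
  refine ⟨fun q => F (q.1.1, eqv k m (q.1.2, q.2)), ?_, fun s w => ?_, fun s w => ?_,
    max r' (c * |r| + 1), fun t s w hsw => ?_, fun q => ?_⟩
  · have h1 : ContDiff ℝ ∞ (fun q : (ℝ × EuclideanSpace ℝ (Fin k)) × E m =>
        (q.1.1, eqv k m (q.1.2, q.2))) :=
      (contDiff_fst.comp contDiff_fst).prodMk ((eqv k m).contDiff.comp
        ((contDiff_snd.comp contDiff_fst).prodMk contDiff_snd))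
    exact F1.comp h1
  · show F (0, eqv k m (s, w)) = _
    rw [F2, hf, (eqv k m).symm_apply_apply]
  · show F (1, eqv k m (s, w)) = _
    rw [F3, hf', (eqv k m).symm_apply_apply]
  · refine F4 _ _ ?_
    by_contra hcon
    push Not at hcon
    have h4 := hc2 (eqv k m (s, w))
    rw [(eqv k m).symm_apply_apply] at h4
    have h5 : c * ‖eqv k m (s, w)‖ ≤ c * |r| :=
      mul_le_mul_of_nonneg_left (hcon.le.trans (le_abs_self r)) hc0
    have h6 : max r' (c * |r| + 1) ≤ ‖(s, w)‖ := by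
      rw [Prod.norm_def]
      rcases hsw with hp | hp
      · exact hp.trans (le_max_left _ _)
      · exact hp.trans (le_max_right _ _)
    linarith [(le_max_right r' (c * |r| + 1)).trans h6]
  · exact supp_mono (hr'.trans (closedBall_subset_closedBall (le_max_left _ _))) (F5 _)

theorem isSlices_one (T : Loops k m n) (hT : ∀ p, T.fam p = 1) :
    IsSlices T (trivialSpheroid k (m + n)) := by
  rw [isSlices_iff]
  intro s
  have h1 : (fun w => T.fam (s, w)) = fun _ => 1 := funext fun w => hT _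
  rw [h1]
  exact slice_one

theorem noNeg_one : NoNegBlock m n (1 : SympCt (m + n)) := (noNegBlock_iff _).2 goodBlock_one

/-- **The homotopy groups.** -/
theorem blockTrivial_iff (hn : 0 < n) : BlockTrivial k m n ↔ PiTrivial (k + 2 * m) n := by
  obtain ⟨T1, hT1⟩ := exists_toLoop (k := k) (m := m) (trivialSpheroid (k + 2 * m) n)
  have hT1' : ∀ p, T1.fam p = 1 := by
    intro p
    have := hT1 (eqv k m p)
    rw [(eqv k m).symm_apply_apply] at this
    rw [← this]
    rfl
  constructor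
  · intro h f
    obtain ⟨T, hT⟩ := exists_toLoop f
    obtain ⟨φ, T', h1, h2, h3⟩ := exists_real hn T
    obtain ⟨f', hf'⟩ := exists_toSph T'
    have h4 := loopHomotopic_of hn h2 (isSlices_one T1 hT1') (h φ h1)
    exact (homotopic_of_loop h3 hT hf').trans (homotopic_of_loop h4 hf' hT1)
  · intro h φ hφ
    obtain ⟨T, hT⟩ := exists_slices hn φ hφ
    obtain ⟨f, hf⟩ := exists_toSph T
    exact blockHomotopic_of hn hφ (fun _ => noNeg_one) hT (isSlices_one T1 hT1')
      (loop_of_homotopic hf hT1 (h f))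

theorem joined_of_block (hn : 0 < n) (h : PiTrivial (2 * m) n) (φ : SympCt (m + n))
    (hφ : NoNegBlock m n φ) : Joined φ 1 := by
  obtain ⟨ψ, hψ⟩ := exists_const_spheroid φ
  have h1 : BlockTrivial 0 m n := (blockTrivial_iff hn).2 (by rw [zero_add]; exact h)
  have hs : ∀ s : EuclideanSpace ℝ (Fin 0), s = 0 := fun s => Subsingleton.elim _ _
  obtain ⟨K, hK, F, F1, F2, F3, F4, F5, -⟩ := h1 ψ (fun s => by rw [hs s, hψ]; exact hφ)
  have h2 := (homotopic_zero_iff ψ (trivialSpheroid 0 (m + n))).1 ⟨K, hK, F, F1, F2, F3, F4, F5⟩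
  rw [hψ] at h2
  exact h2

end Pool.Agent.H84.Blk
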