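import Pool.Agent.H84.Blk.Extract

/-!
# Slowing down
-/

set_option autoImplicit false
set_option linter.unusedSectionVars false

open Set Filter Topology Metric Function
open scoped ContDiff NNReal

noncomputable section

namespace Pool.Agent.H84.Blk

open Pool.Agent.X277.Sy Pool.Agent.H84.PP

variable {m n : ℕ} {Q Q' : Type} [NormedAddCommGroup Q] [NormedSpace ℝ Q]
  [NormedAddCommGroup Q'] [NormedSpace ℝ Q']

/-- the dilation of the `y`-part -/
def dil (ε : ℝ) (w : E m) : E m := cx w + ε • cy w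

/-- the dilation of the `x`-part -/
def dil' (ε : ℝ) (w : E m) : E m := ε • cx w + cy w

/-- the dilation on the product -/
def Dil (ε : ℝ) (z : E (m + n)) : E (m + n) := jw (dil ε (bw z)) + jv (bv z)

theorem dil_one (w : E m) : dil 1 w = w := by
  unfold dil
  rw [one_smul, cx_add_cy]

theorem omega_dil (ε : ℝ) (a b : E m) : omega a (dil ε b) = omega (dil' ε a) b := by
  unfold dil dil'
  rw [omega_add_right, omega_smul_right, ← omega_cy, ← omega_cx, omega_add_left, omega_smul_left]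
  ring

theorem le_norm_dil {ε : ℝ} (h0 : 0 ≤ ε) (h1 : ε ≤ 1) (w : E m) : ε * ‖w‖ ≤ 2 * ‖dil ε w‖ := by
  have e1 : cx (dil ε w) = cx w := by
    unfold dil
    simp
  have e2 : cy (dil ε w) = ε • cy w := by
    unfold dil
    simp
  have n1 := norm_cx_le (dil ε w)
  have n2 := norm_cy_le (dil ε w)
  rw [e1] at n1
  rw [e2, norm_smul, Real.norm_eq_abs, abs_of_nonneg h0] at n2
  have n3 : ‖w‖ ≤ ‖cx w‖ + ‖cy w‖ := by
    conv_lhs => rw [← cx_add_cy w]
    exact norm_add_le _ _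
  have n4 : ε * ‖cx w‖ ≤ ‖cx w‖ := mul_le_of_le_one_left (norm_nonneg _) h1
  nlinarith [norm_nonneg (cx w)]

theorem dil_contDiff {P : Type} [NormedAddCommGroup P] [NormedSpace ℝ P] {ε : P → ℝ}
    {w : P → E m} (hε : ContDiff ℝ ∞ ε) (hw : ContDiff ℝ ∞ w) :
    ContDiff ℝ ∞ (fun p => dil (ε p) (w p)) :=
  (cx.contDiff.comp hw).add (hε.smul (cy.contDiff.comp hw))

/-- the dilation as a linear map -/
def DilL (ε : ℝ) : E (m + n) →L[ℝ] E (m + n) :=
  jw.comp ((cx + ε • cy).comp bw) + jv.comp bv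

theorem DilL_apply (ε : ℝ) (z : E (m + n)) : DilL ε z = Dil ε z := rfl

theorem bw_Dil (ε : ℝ) (z : E (m + n)) : bw (Dil ε z) = dil ε (bw z) := by
  unfold Dil
  simp

theorem bv_Dil (ε : ℝ) (z : E (m + n)) : bv (Dil ε z) = bv z := by
  unfold Dil
  simp

/-- the slowed down family -/
def slowT (ε : Q → ℝ) (p : Q → Q') (T : Q' × E m → SympCt n) (r : Q × E m) : SympCt n :=
  T (p r.1, dil (ε r.1) r.2)

/-- its generating function -/
def slowG (ε : Q → ℝ) (p : Q → Q') (g : Q' → E (m + n) → E m) (q : Q) (z : E (m + n)) : E m :=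
  dil' (ε q) (g (p q) (Dil (ε q) z))

section Slow

variable {ε : Q → ℝ} {p : Q → Q'} {T : Q' × E m → SympCt n} {g : Q' → E (m + n) → E m}

theorem slowT_smooth (hε : ContDiff ℝ ∞ ε) (hp : ContDiff ℝ ∞ p) (hT : IsSmoothFamily T) :
    IsSmoothFamily (slowT ε p T) :=
  hT.comp (f := fun r : Q × E m => (p r.1, dil (ε r.1) r.2))
    ((hp.comp contDiff_fst).prodMk (dil_contDiff (hε.comp contDiff_fst) contDiff_snd))

theorem hat_slowT (q : Q) (z : E (m + n)) :
    hat (slowT ε p T) q z = hat T (p q) (Dil (ε q) z) := by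
  unfold hat slowT
  rw [bw_Dil, bv_Dil]


theorem fderiv_slowG' {q : Q} (hg : Differentiable ℝ (g (p q))) (z a : E (m + n)) :
    fderiv ℝ (slowG ε p g q) z a =
      dil' (ε q) (fderiv ℝ (g (p q)) (Dil (ε q) z) (Dil (ε q) a)) := by
  have h1 : HasFDerivAt (fun z : E (m + n) => Dil (ε q) z) (DilL (ε q)) z :=
    (DilL (ε q)).hasFDerivAt
  have h2 : HasFDerivAt (fun z => (ε q • cx + cy : E m →L[ℝ] E m) (g (p q) (Dil (ε q) z)))
      ((ε q • cx + cy : E m →L[ℝ] E m).comp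
      ((fderiv ℝ (g (p q)) (Dil (ε q) z)).comp (DilL (ε q)))) z :=
    HasFDerivAt.comp (g := (ε q • cx + cy : E m →L[ℝ] E m)) z
      (ε q • cx + cy : E m →L[ℝ] E m).hasFDerivAt ((hg _).hasFDerivAt.comp z h1)
  have h3 : slowG ε p g q = fun z => (ε q • cx + cy : E m →L[ℝ] E m) (g (p q) (Dil (ε q) z)) :=
    funext fun z => rfl
  rw [h3, h2.fderiv]
  rfl

theorem fderiv_slowT {q : Q} (hT : Differentiable ℝ (hat T (p q))) (z a : E (m + n)) :
    fderiv ℝ (hat (slowT ε p T) q) z a =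
      fderiv ℝ (hat T (p q)) (Dil (ε q) z) (Dil (ε q) a) := by
  have h1 : HasFDerivAt (fun z : E (m + n) => Dil (ε q) z) (DilL (ε q)) z :=
    (DilL (ε q)).hasFDerivAt
  have h2 : HasFDerivAt (fun z => hat T (p q) (Dil (ε q) z))
      ((fderiv ℝ (hat T (p q)) (Dil (ε q) z)).comp (DilL (ε q))) z :=
    (hT _).hasFDerivAt.comp z h1
  have h3 : hat (slowT ε p T) q = fun z => hat T (p q) (Dil (ε q) z) := funext fun z =>
    hat_slowT q z
  rw [h3, h2.fderiv]
  rfl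

theorem slow_tfam {R δ : ℝ} (hε : ContDiff ℝ ∞ ε) (hp : ContDiff ℝ ∞ p) (hδ : 0 < δ)
    (hε0 : ∀ q, δ ≤ ε q) (hε1 : ∀ q, ε q ≤ 1) (hR : 0 ≤ R) (hT : TFam R T) :
    TFam (R + 2 * R / δ) (slowT ε p T) := by
  have h0 : 0 ≤ 2 * R / δ := by positivity
  refine ⟨slowT_smooth hε hp hT.smooth, fun r => ?_, fun q w hw => ?_⟩
  · exact supp_mono (closedBall_subset_closedBall (by linarith)) (hT.supp _)
  · refine hT.far _ _ ?_
    have h1 := le_norm_dil (hδ.le.trans (hε0 q)) (hε1 q) w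
    have h2 : 2 * R / δ ≤ ‖w‖ := by linarith
    rw [div_le_iff₀ hδ] at h2
    have h3 : δ * ‖w‖ ≤ ε q * ‖w‖ := mul_le_mul_of_nonneg_right (hε0 q) (norm_nonneg _)
    linarith

theorem slow_gen {R δ : ℝ} (hε : ContDiff ℝ ∞ ε) (hp : ContDiff ℝ ∞ p) (hδ : 0 < δ)
    (hε0 : ∀ q, δ ≤ ε q) (hε1 : ∀ q, ε q ≤ 1) (hR : 0 ≤ R) (hT : TFam R T) (hg : Gen R T g) :
    Gen (R + 2 * R / δ) (slowT ε p T) (slowG ε p g) := by
  have h0 : 0 ≤ 2 * R / δ := by positivity
  have hz0 : ∀ c, dil' (m := m) c 0 = 0 := by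
    intro c
    unfold dil'
    simp
  refine ⟨?_, fun q z hz => ?_, fun q z hz => ?_, fun q z a b => ?_⟩
  · have h1 : ContDiff ℝ ∞ (fun r : Q × E (m + n) => (p r.1, Dil (ε r.1) r.2)) :=
      (hp.comp contDiff_fst).prodMk ((jw.contDiff.comp (dil_contDiff (hε.comp contDiff_fst)
        (bw.contDiff.comp contDiff_snd))).add (jv.contDiff.comp (bv.contDiff.comp contDiff_snd)))
    have h2 : ContDiff ℝ ∞ (fun r : Q × E (m + n) => g (p r.1) (Dil (ε r.1) r.2)) :=
      hg.smooth.comp h1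
    exact ((hε.comp contDiff_fst).smul (cx.contDiff.comp h2)).add (cy.contDiff.comp h2)
  · unfold slowG
    rw [hg.far_w, hz0]
    rw [bw_Dil]
    have h1 := le_norm_dil (hδ.le.trans (hε0 q)) (hε1 q) (bw z)
    have h2 : 2 * R / δ < ‖bw z‖ := by linarith
    rw [div_lt_iff₀ hδ] at h2
    have h3 : δ * ‖bw z‖ ≤ ε q * ‖bw z‖ := mul_le_mul_of_nonneg_right (hε0 q) (norm_nonneg _)
    linarith
  · unfold slowG
    rw [hg.far_v, hz0]
    rw [bv_Dil]
    linarith
  · rw [fderiv_slowT (fam_diff (hat_smooth hT.smooth) _),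
      fderiv_slowT (fam_diff (hat_smooth hT.smooth) _), fderiv_slowG' (fam_diff hg.smooth _),
      fderiv_slowG' (fam_diff hg.smooth _), hg.eq, bv_Dil, bv_Dil, bw_Dil, bw_Dil, omega_dil,
      omega_dil]

theorem cx_dil' (c : ℝ) (w : E m) : cx (dil' c w) = c • cx w := by
  unfold dil'
  simp

theorem Dil_x {c : ℝ} {h : E m} (hh : cx h = h) : Dil c (jw h : E (m + n)) = jw h := by
  unfold Dil dil
  have hcy : cy h = 0 := by rw [← hh, cy_cx]
  simp [hh, hcy]

theorem slow_good {q : Q} (hg : Differentiable ℝ (g (p q))) (hgood : GoodGen (g (p q)))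
    (h0 : 0 < ε q) (h1 : ε q ≤ 1) : GoodGen (slowG ε p g q) := by
  intro z c h hc hh hD
  rw [fderiv_slowG' hg, Dil_x hh, cx_dil'] at hD
  refine hgood (Dil (ε q) z) ((c - 1 + ε q) / ε q) h
    (div_nonpos_of_nonpos_of_nonneg (by linarith) h0.le) hh ?_
  set D := cx (fderiv ℝ (g (p q)) (Dil (ε q) z) (jw h))
  have h2 : ε q • D = (c - 1) • h := by
    rw [sub_smul, one_smul, ← hD]
    abel
  have h3 : D = ((c - 1) / ε q) • h := by
    rw [div_eq_inv_mul, mul_smul, ← h2, smul_smul, inv_mul_cancel₀ h0.ne', one_smul]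
  rw [h3]
  have h4 : (c - 1 + ε q) / ε q = 1 + (c - 1) / ε q := by
    field_simp
    ring
  rw [h4, add_smul, one_smul]

theorem slow_small {q : Q} (hg : Differentiable ℝ (g (p q))) {M : ℝ}
    (hM : ∀ z h, ‖cx (fderiv ℝ (g (p q)) z (jw h))‖ ≤ M * ‖h‖) (h0 : 0 ≤ ε q)
    (h1 : ε q * M < 1) : GoodGen (slowG ε p g q) := by
  intro z c h hc hh hD
  rw [fderiv_slowG' hg, Dil_x hh, cx_dil'] at hD
  set D := cx (fderiv ℝ (g (p q)) (Dil (ε q) z) (jw h)) with hDdef
  have h2 : (1 - c) • h = -(ε q • D) := by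
    rw [sub_smul, one_smul, ← hD]
    abel
  have h3 := congrArg norm h2
  rw [norm_neg, norm_smul, norm_smul, Real.norm_eq_abs, Real.norm_eq_abs,
    abs_of_nonneg (by linarith : 0 ≤ 1 - c), abs_of_nonneg h0] at h3
  have h4 := hM (Dil (ε q) z) h
  rw [← hDdef] at h4
  have h5 : ε q * ‖D‖ ≤ ε q * M * ‖h‖ := by
    rw [mul_assoc]
    exact mul_le_mul_of_nonneg_left h4 h0
  by_contra hcon
  have h6 : 0 < ‖h‖ := norm_pos_iff.2 hcon
  have h7 : ε q * M * ‖h‖ < 1 * ‖h‖ := mul_lt_mul_of_pos_right h1 h6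
  nlinarith

end Slow

/-! ### Bounds -/

theorem cont_fderiv_family {m' : ℕ} {B : Type} [NormedAddCommGroup B] [NormedSpace ℝ B]
    {f : Q → E m' → B} (hf : ContDiff ℝ ∞ (fun p : Q × E m' => f p.1 p.2)) :
    Continuous (fun p : Q × E m' => fderiv ℝ (f p.1) p.2) := by
  have h1 : (fun p : Q × E m' => fderiv ℝ (f p.1) p.2) = fun p =>
      (fderiv ℝ (fun p : Q × E m' => f p.1 p.2) p).comp (ContinuousLinearMap.inr ℝ Q (E m')) := by
    funext p
    have h2 : HasFDerivAt (fun z => f p.1 z)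
        ((fderiv ℝ (fun p : Q × E m' => f p.1 p.2) (p.1, p.2)).comp
          (ContinuousLinearMap.inr ℝ Q (E m'))) p.2 :=
      HasFDerivAt.comp (g := fun p : Q × E m' => f p.1 p.2) p.2
        (hf.differentiable (by simp) (p.1, p.2)).hasFDerivAt (hasFDerivAt_prodMk_right p.1 p.2)
    exact h2.fderiv
  rw [h1]
  exact (hf.continuous_fderiv (by simp)).clm_comp continuous_const

theorem Gen.bound {R : ℝ} {T : Q × E m → SympCt n} {g : Q → E (m + n) → E m} (hg : Gen R T g)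
    {C : Set Q} (hC : IsCompact C) : ∃ M : ℝ, 0 ≤ M ∧ ∀ q ∈ C, ∀ z h,
      ‖cx (fderiv ℝ (g q) z (jw h))‖ ≤ M * ‖h‖ := by
  have hc := cont_fderiv_family hg.smooth
  obtain ⟨M, hM⟩ := (hC.prod (isCompact_closedBall (0 : E (m + n)) (2 * R))).exists_bound_of_continuousOn
    hc.continuousOn
  refine ⟨max M 0, le_max_right _ _, fun q hq z h => ?_⟩
  have h1 : ‖fderiv ℝ (g q) z‖ ≤ max M 0 := by
    by_cases hz : ‖z‖ ≤ 2 * R
    · exact (hM (q, z) ⟨hq, by simpa using hz⟩).trans (le_max_left _ _)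
    · have h2 : g q =ᶠ[𝓝 z] fun _ => 0 := by
        filter_upwards [(isOpen_lt continuous_const continuous_norm).mem_nhds (not_le.1 hz)]
          with w hw
        rcases norm_lt_of_far (show 2 * R < ‖w‖ from hw) with h | h
        · exact hg.far_w q w h
        · exact hg.far_v q w h
      rw [h2.fderiv_eq, fderiv_fun_const]
      simp
  calc ‖cx (fderiv ℝ (g q) z (jw h))‖ ≤ ‖fderiv ℝ (g q) z (jw h)‖ := norm_cx_le _
    _ ≤ ‖fderiv ℝ (g q) z‖ * ‖(jw h : E (m + n))‖ := ContinuousLinearMap.le_opNorm _ _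
    _ ≤ max M 0 * ‖h‖ := by
      rw [norm_jw]
      exact mul_le_mul_of_nonneg_right h1 (norm_nonneg _)

end Pool.Agent.H84.Blk
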