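import Pool.Agent.H84.Blk.Gen

/-!
# Symplectomorphisms with a good block and their slices
-/

set_option autoImplicit false
set_option linter.unusedSectionVars false

open Set Filter Topology Metric Function
open scoped ContDiff NNReal

noncomputable section

namespace Pool.Agent.H84.Blk

open Pool.Agent.X277.Sy Pool.Agent.H84.PP

variable {m n : ℕ} {Q : Type} [NormedAddCommGroup Q] [NormedSpace ℝ Q]

/-- families of compactly supported local diffeomorphisms -/
theorem exists_diffeo {N : ℕ} (hN : 0 < N) [FiniteDimensional ℝ Q] {A : Q → E N → E N}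
    (hA : ContDiff ℝ ∞ (fun p : Q × E N => A p.1 p.2))
    (hinj : ∀ q z, Injective (fderiv ℝ (A q) z)) {R : ℝ} (hR : ∀ q z, R < ‖z‖ → A q z = z) :
    ∃ χ : Q → E N → E N, ContDiff ℝ ∞ (fun p : Q × E N => χ p.1 p.2) ∧
      (∀ q z, χ q (A q z) = z) ∧ ∀ q z, A q (χ q z) = z := by
  have : CompleteSpace Q := FiniteDimensional.complete ℝ Q
  have hAq : ∀ q, ContDiff ℝ ∞ (A q) := fun q => hA.comp (contDiff_const.prodMk contDiff_id)
  let L : Q → E N → (E N ≃L[ℝ] E N) := fun q x =>
    (LinearEquiv.ofInjectiveEndo (fderiv ℝ (A q) x : E N →ₗ[ℝ] E N) (hinj q x)).toContinuousLinearEquiv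
  have hL : ∀ q x, HasFDerivAt (A q) ((L q x : E N ≃L[ℝ] E N) : E N →L[ℝ] E N) x := by
    intro q x
    refine (((hAq q).differentiable (by simp) x).hasFDerivAt).congr_fderiv ?_
    ext v
    rfl
  have hbij : ∀ q, Bijective (A q) := by
    intro q
    have hstrict : ∀ x, HasStrictFDerivAt (A q) ((L q x : E N ≃L[ℝ] E N) : E N →L[ℝ] E N) x :=
      fun x => (hAq q).contDiffAt.hasStrictFDerivAt' (hL q x) (by simp)
    have hopen : IsOpenMap (A q) := isOpenMap_of_hasStrictFDerivAt_equiv hstrict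
    have : Nonempty (Fin N × Fin 2) := ⟨(⟨0, hN⟩, 0)⟩
    have : NoncompactSpace (E N) := NormedSpace.noncompactSpace ℝ (E N)
    exact bijective_of_local (hAq q).continuous hopen (fun x =>
      ⟨((hstrict x).toOpenPartialHomeomorph (A q)).source,
        ((hstrict x).toOpenPartialHomeomorph (A q)).open_source,
        (hstrict x).mem_toOpenPartialHomeomorph_source,
        ((hstrict x).toOpenPartialHomeomorph (A q)).injOn⟩) (isCompact_closedBall (0 : E N) R)
      (fun x hx => hR q x (by rwa [mem_closedBall_zero_iff, not_le] at hx))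
  let χ : Q → E N → E N := fun q => (Equiv.ofBijective _ (hbij q)).symm
  have h1 : ∀ q z, χ q (A q z) = z := fun q z => (Equiv.ofBijective _ (hbij q)).symm_apply_apply z
  have h2 : ∀ q z, A q (χ q z) = z := fun q z => (Equiv.ofBijective _ (hbij q)).apply_symm_apply z
  exact ⟨χ, joint_inverse (F := fun p : Q × E N => A p.1 p.2) (G := fun p : Q × E N => χ p.1 p.2)
    hA L hL h1 h2, h1, h2⟩

/-! ### The two maps -/

/-- the first map -/
def Amap (g : E (m + n) → E m) (z : E (m + n)) : E (m + n) := z + jw (cx (g z))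

/-- the second map -/
def Cmap (F : E (m + n) → E n) (g : E (m + n) → E m) (z : E (m + n)) : E (m + n) :=
  jw (bw z - cy (g z)) + jv (F z)

theorem hasFDerivAt_Amap {g : E (m + n) → E m} (hg : Differentiable ℝ g) (z : E (m + n)) :
    HasFDerivAt (Amap g) (ContinuousLinearMap.id ℝ (E (m + n)) +
      jw.comp (cx.comp (fderiv ℝ g z))) z :=
  (hasFDerivAt_id z).add (jw.hasFDerivAt.comp z (cx.hasFDerivAt.comp z (hg z).hasFDerivAt))

theorem fderiv_Amap {g : E (m + n) → E m} (hg : Differentiable ℝ g) (z a : E (m + n)) :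
    fderiv ℝ (Amap g) z a = a + jw (cx (fderiv ℝ g z a)) := by
  rw [(hasFDerivAt_Amap hg z).fderiv]
  rfl

theorem fderiv_Cmap {F : E (m + n) → E n} (hF : Differentiable ℝ F) {g : E (m + n) → E m}
    (hg : Differentiable ℝ g) (z a : E (m + n)) :
    fderiv ℝ (Cmap F g) z a = jw (bw a - cy (fderiv ℝ g z a)) + jv (fderiv ℝ F z a) := by
  have h1 : HasFDerivAt (Cmap F g) (jw.comp (bw - cy.comp (fderiv ℝ g z)) +
      jv.comp (fderiv ℝ F z)) z :=
    (jw.hasFDerivAt.comp z (bw.hasFDerivAt.sub (cy.hasFDerivAt.comp z (hg z).hasFDerivAt))).add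
      (jv.hasFDerivAt.comp z (hF z).hasFDerivAt)
  rw [h1.fderiv]
  rfl

/-- the comparison of the pulled back forms -/
theorem forms_eq {F : E (m + n) → E n} (hF : Differentiable ℝ F) {g : E (m + n) → E m}
    (hg : Differentiable ℝ g) (z a b : E (m + n)) :
    omega (fderiv ℝ (Amap g) z a) (fderiv ℝ (Amap g) z b) -
      omega (fderiv ℝ (Cmap F g) z a) (fderiv ℝ (Cmap F g) z b) =
    omega (bv a) (bv b) + omega (fderiv ℝ g z a) (bw b) - omega (fderiv ℝ g z b) (bw a) -
      omega (fderiv ℝ F z a) (fderiv ℝ F z b) := by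
  rw [fderiv_Amap hg, fderiv_Amap hg, fderiv_Cmap hF hg, fderiv_Cmap hF hg]
  set da := fderiv ℝ g z a
  set db := fderiv ℝ g z b
  rw [omega_split2, omega_split2 (jw _ + _)]
  simp only [map_add, map_sub, bw_jw, bv_jw, bw_jv, bv_jv, add_zero]
  simp only [omega_add_left, omega_add_right, omega_sub_left, omega_sub_right, omega_cx_cx,
    omega_cy_cy]
  have s1 : omega da (bw b) = omega (cx da) (bw b) + omega (cy da) (bw b) := by
    rw [← omega_add_left, cx_add_cy]
  have s2 : omega db (bw a) = omega (cx db) (bw a) + omega (cy db) (bw a) := by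
    rw [← omega_add_left, cx_add_cy]
  have s3 := omega_swap (bw a) (cx db)
  have s4 := omega_swap (bw a) (cy db)
  linarith

theorem fam_diff {B : Type} [NormedAddCommGroup B] [NormedSpace ℝ B] {N : ℕ} {g : Q → E N → B}
    (h : ContDiff ℝ ∞ (fun p : Q × E N => g p.1 p.2)) (q : Q) : Differentiable ℝ (g q) :=
  ContDiff.differentiable (n := ∞) (h.comp (contDiff_const.prodMk contDiff_id)) (by simp)

/-- the `x`-block has no real eigenvalue `≤ 0` -/
def GoodBlock (φ : E (m + n) → E (m + n)) : Prop :=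
  ∀ z (c : ℝ) (h : E m), c ≤ 0 → cx h = h → cx (bw (fderiv ℝ φ z (jw h))) = c • h → h = 0

/-- the corresponding condition for the generating function -/
def GoodGen (g : E (m + n) → E m) : Prop :=
  ∀ z (c : ℝ) (h : E m), c ≤ 0 → cx h = h → h + cx (fderiv ℝ g z (jw h)) = c • h → h = 0

/-- `T` is the family of slices of `φ` -/
def IsSliceAt (T : E m → SympCt n) (φ : E (m + n) → E (m + n)) : Prop :=
  ∀ z, (T (cx (bw (φ z)) + cy (bw z))).map (bv z) = bv (φ z)

theorem cx_of_sub {a b : E m} (h : a = b - cx a) (hb : cx b = b) : cx a = a := by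
  have h1 := congrArg cx h
  rw [map_sub, cx_cx, hb] at h1
  have h2 := congrArg cy h
  rw [map_sub, cy_cx, sub_zero, ← hb, cy_cx] at h2
  rw [← cx_add_cy a, h2, add_zero, cx_cx]

theorem norm_lt_of_far {R : ℝ} {z : E (m + n)} (hz : 2 * R < ‖z‖) : R < ‖bw z‖ ∨ R < ‖bv z‖ := by
  by_contra hcon
  push Not at hcon
  have := norm_le_split2 z
  linarith [hcon.1, hcon.2]

/-! ### Reconstruction -/

theorem gen_one (R : ℝ) : Gen R (fun _ : Q × E m => (1 : SympCt n)) fun _ _ => 0 := by
  refine ⟨contDiff_const, fun _ _ _ => rfl, fun _ _ _ => rfl, fun q z a b => ?_⟩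
  have h1 : hat (fun _ : Q × E m => (1 : SympCt n)) q = (bv : E (m + n) → E n) := rfl
  rw [h1, ContinuousLinearMap.fderiv, fderiv_fun_const]
  simp [omega_zero_left]

/-- **Reconstruction.** -/
theorem reconstruct (hn : 0 < n) [FiniteDimensional ℝ Q] {R : ℝ}
    {T : Q × E m → SympCt n} {g : Q → E (m + n) → E m} (hT : TFam R T) (hg : Gen R T g)
    (hgood : ∀ q, GoodGen (g q)) :
    ∃ φ : Q → SympCt (m + n), IsSmoothFamily φ ∧
      (∀ q, SupportedIn (closedBall 0 (2 * R)) (φ q).map) ∧ (∀ q, GoodBlock (φ q).map) ∧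
      (∀ q, IsSliceAt (fun w => T (q, w)) (φ q).map) ∧
      ∀ q, (∀ w, T (q, w) = 1) → φ q = 1 := by
  have hgd : ∀ q, Differentiable ℝ (g q) := fun q => fam_diff hg.smooth q
  have hTd : ∀ q, Differentiable ℝ (hat T q) := fun q => fam_diff (hat_smooth hT.smooth) q
  have hAs : ContDiff ℝ ∞ (fun p : Q × E (m + n) => Amap (g p.1) p.2) :=
    contDiff_snd.add (jw.contDiff.comp (cx.contDiff.comp hg.smooth))
  have hCs : ContDiff ℝ ∞ (fun p : Q × E (m + n) => Cmap (hat T p.1) (g p.1) p.2) :=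
    (jw.contDiff.comp ((bw.contDiff.comp contDiff_snd).sub (cy.contDiff.comp hg.smooth))).add
      (jv.contDiff.comp (hat_smooth hT.smooth))
  have hg0 : ∀ q z, 2 * R < ‖z‖ → g q z = 0 := by
    intro q z hz
    rcases norm_lt_of_far hz with h | h
    · exact hg.far_w q z h
    · exact hg.far_v q z h
  have hT0 : ∀ q z, 2 * R < ‖z‖ → hat T q z = bv z := by
    intro q z hz
    rcases norm_lt_of_far hz with h | h
    · exact hat_far_w hT h.le
    · exact hat_far_v hT h
  have hA0 : ∀ q z, 2 * R < ‖z‖ → Amap (g q) z = z := by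
    intro q z hz
    unfold Amap
    rw [hg0 q z hz, map_zero, map_zero, add_zero]
  -- vectors with image in the `x`-space
  have hx : ∀ q z (a : E (m + n)) (h : E m), cx h = h → fderiv ℝ (Amap (g q)) z a = jw h →
      ∃ k : E m, cx k = k ∧ a = jw k ∧ k + cx (fderiv ℝ (g q) z (jw k)) = h := by
    intro q z a h hh ha
    rw [fderiv_Amap (hgd q)] at ha
    have h1 := congrArg bv ha
    rw [map_add, bv_jw, bv_jw, add_zero] at h1
    have h2 := congrArg bw ha
    rw [map_add, bw_jw, bw_jw] at h2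
    have h3 : a = jw (bw a) := by
      conv_lhs => rw [← eta2 a]
      rw [h1, map_zero, add_zero]
    have h4 : cx (bw a) = bw a := by
      have e1 := congrArg cy h2
      rw [map_add, cy_cx, add_zero, ← hh, cy_cx] at e1
      conv_rhs => rw [← cx_add_cy (bw a)]
      rw [e1, add_zero]
    refine ⟨bw a, h4, h3, ?_⟩
    rw [← h3]
    exact h2
  have hinj : ∀ q z, Injective (fderiv ℝ (Amap (g q)) z) := by
    intro q z
    refine (injective_iff_map_eq_zero _).2 fun a ha => ?_
    obtain ⟨k, hk, rfl, h1⟩ := hx q z a 0 (map_zero _) (by rw [ha, map_zero])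
    rw [hgood q z 0 k le_rfl hk (by rw [h1, zero_smul]), map_zero]
  have hN : 0 < m + n := by omega
  obtain ⟨χ, hχs, hχ1, hχ2⟩ := exists_diffeo hN hAs hinj hA0
  let φ : Q → E (m + n) → E (m + n) := fun q z => Cmap (hat T q) (g q) (χ q z)
  have hφs : ContDiff ℝ ∞ (fun p : Q × E (m + n) => φ p.1 p.2) :=
    hCs.comp (contDiff_fst.prodMk hχs)
  have hχ0 : ∀ q z, 2 * R < ‖z‖ → χ q z = z := by
    intro q z hz
    have := hχ1 q z
    rwa [hA0 q z hz] at this
  have hφ0 : ∀ q, SupportedIn (closedBall 0 (2 * R)) (φ q) := by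
    intro q z hz
    rw [mem_closedBall_zero_iff, not_le] at hz
    show Cmap (hat T q) (g q) (χ q z) = z
    rw [hχ0 q z hz]
    unfold Cmap
    rw [hg0 q z hz, hT0 q z hz, map_zero, sub_zero, eta2]
  have hχd : ∀ q, Differentiable ℝ (χ q) := fun q => fam_diff hχs q
  have hCd : ∀ q, Differentiable ℝ (Cmap (hat T q) (g q)) := fun q =>
    fam_diff (g := fun q => Cmap (hat T q) (g q)) hCs q
  have hφd : ∀ q z a, fderiv ℝ (φ q) z a =
      fderiv ℝ (Cmap (hat T q) (g q)) (χ q z) (fderiv ℝ (χ q) z a) := by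
    intro q z a
    have h1 : HasFDerivAt (φ q) ((fderiv ℝ (Cmap (hat T q) (g q)) (χ q z)).comp
        (fderiv ℝ (χ q) z)) z := (hCd q (χ q z)).hasFDerivAt.comp z (hχd q z).hasFDerivAt
    rw [h1.fderiv]
    rfl
  have hAχ : ∀ q z a, fderiv ℝ (Amap (g q)) (χ q z) (fderiv ℝ (χ q) z a) = a := by
    intro q z a
    have h1 : HasFDerivAt (fun z => Amap (g q) (χ q z)) ((fderiv ℝ (Amap (g q)) (χ q z)).comp
        (fderiv ℝ (χ q) z)) z :=
      (hasFDerivAt_Amap (hgd q) (χ q z)).differentiableAt.hasFDerivAt.comp z (hχd q z).hasFDerivAt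
    have h2 : (fun z => Amap (g q) (χ q z)) = id := funext fun z => hχ2 q z
    rw [h2] at h1
    have h3 := h1.unique (hasFDerivAt_id z)
    exact DFunLike.congr_fun h3 a
  have hsy : ∀ q z a b, omega (fderiv ℝ (φ q) z a) (fderiv ℝ (φ q) z b) = omega a b := by
    intro q z a b
    rw [hφd, hφd]
    have h1 := forms_eq (hTd q) (hgd q) (χ q z) (fderiv ℝ (χ q) z a) (fderiv ℝ (χ q) z b)
    rw [hg.eq, hAχ, hAχ] at h1
    linarith
  have hsymp : ∀ q, IsSymplectomorphism (φ q) := fun q =>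
    mkSymp hN (hφs.comp (contDiff_const.prodMk contDiff_id)) (hsy q)
      (isCompact_closedBall 0 (2 * R)) (hφ0 q)
  refine ⟨fun q => ⟨φ q, hsymp q, closedBall 0 (2 * R), isCompact_closedBall _ _, hφ0 q⟩, hφs,
    hφ0, ?_, ?_, ?_⟩
  · intro q ζ c h hc hh hD
    have hD' : cx (bw (fderiv ℝ (φ q) ζ (jw h))) = c • h := hD
    obtain ⟨k, hk, hak, h1⟩ := hx q (χ q ζ) (fderiv ℝ (χ q) ζ (jw h)) h hh (hAχ q ζ (jw h))
    rw [hφd, hak, fderiv_Cmap (hTd q) (hgd q), map_add, bw_jw, bw_jv, add_zero, map_sub, cx_cy,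
      sub_zero, bw_jw, hk] at hD'
    rcases hc.eq_or_lt with h2 | h2
    · rw [h2, zero_smul] at hD'
      rw [hD'] at h1
      rw [← h1]
      simp
    · have h3 : h = c⁻¹ • k := by rw [hD', smul_smul, inv_mul_cancel₀ h2.ne, one_smul]
      have h4 : k = 0 := hgood q (χ q ζ) c⁻¹ k (inv_nonpos.2 hc) hk (by rw [h1, h3])
      rw [h3, h4, smul_zero]
  · intro q ζ
    set z := χ q ζ with hz
    have h1 : ζ = Amap (g q) z := (hχ2 q ζ).symm
    have h2 : bw ζ = bw z + cx (g q z) := by
      rw [h1]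
      unfold Amap
      rw [map_add, bw_jw]
    have h3 : bv ζ = bv z := by
      rw [h1]
      unfold Amap
      rw [map_add, bv_jw, add_zero]
    have h4 : φ q ζ = jw (bw z - cy (g q z)) + jv (hat T q z) := rfl
    show (T (q, cx (bw (φ q ζ)) + cy (bw ζ))).map (bv ζ) = bv (φ q ζ)
    rw [h4, h3, h2]
    simp only [map_add, map_sub, bw_jw, bw_jv, bv_jw, bv_jv, add_zero, zero_add, cx_cy, cy_cx,
      sub_zero, cx_add_cy]
    rfl
  · intro q hq
    have h1 : ∀ z, g q z = 0 := by
      intro z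
      have h2 : hat T q = hat (fun _ : Q × E m => (1 : SympCt n)) q := by
        funext z
        unfold hat
        rw [hq]
      exact Gen.unique hn hg (gen_one (Q := Q) R) h2 z
    have h3 : ∀ z, hat T q z = bv z := by
      intro z
      unfold hat
      rw [hq]
      rfl
    have h4 : ∀ z, Amap (g q) z = z := by
      intro z
      unfold Amap
      rw [h1, map_zero, map_zero, add_zero]
    apply SympCt.ext
    funext z
    show Cmap (hat T q) (g q) (χ q z) = z
    have h5 : χ q z = z := by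
      have := hχ1 q z
      rwa [h4] at this
    rw [h5]
    unfold Cmap
    rw [h1, h3, map_zero, sub_zero, eta2]

end Pool.Agent.H84.Blk
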