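import Pool.Agent.H84.PP.Main

/-!
# Coordinates of `ℝ^{2m+2n} = ℝ^{2m} × ℝ^{2n}` and of `ℝ^{2m} = ℝ^m × ℝ^m`
-/

set_option autoImplicit false

open Set Filter Topology Metric Function
open scoped ContDiff NNReal

noncomputable section

namespace Pool.Agent.H84.Blk

open Pool.Agent.X277.Sy Pool.Agent.H84.PP

variable {m n : ℕ}

/-- the first `m` pairs of coordinates -/
def bw : E (m + n) →L[ℝ] E m := LinearMap.toContinuousLinearMap
  { toFun := fun z => WithLp.toLp 2 (fun p : Fin m × Fin 2 => z (Fin.castAdd n p.1, p.2))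
    map_add' := fun _ _ => rfl
    map_smul' := fun _ _ => rfl }

/-- the last `n` pairs of coordinates -/
def bv : E (m + n) →L[ℝ] E n := LinearMap.toContinuousLinearMap
  { toFun := fun z => WithLp.toLp 2 (fun p : Fin n × Fin 2 => z (Fin.natAdd m p.1, p.2))
    map_add' := fun _ _ => rfl
    map_smul' := fun _ _ => rfl }

/-- the inclusion of `ℝ^{2m}` -/
def jw : E m →L[ℝ] E (m + n) := LinearMap.toContinuousLinearMap
  { toFun := fun w => WithLp.toLp 2 (fun p : Fin (m + n) × Fin 2 =>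
      Fin.addCases (motive := fun _ => ℝ) (fun i => w (i, p.2)) (fun _ => 0) p.1)
    map_add' := fun u v => by
      ext ⟨i, j⟩
      refine Fin.addCases (fun i => ?_) (fun i => ?_) i
      · simp
      · simp
    map_smul' := fun c v => by
      ext ⟨i, j⟩
      refine Fin.addCases (fun i => ?_) (fun i => ?_) i
      · simp
      · simp }

/-- the inclusion of `ℝ^{2n}` -/
def jv : E n →L[ℝ] E (m + n) := LinearMap.toContinuousLinearMap
  { toFun := fun v => WithLp.toLp 2 (fun p : Fin (m + n) × Fin 2 =>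
      Fin.addCases (motive := fun _ => ℝ) (fun _ => 0) (fun i => v (i, p.2)) p.1)
    map_add' := fun u v => by
      ext ⟨i, j⟩
      refine Fin.addCases (fun i => ?_) (fun i => ?_) i
      · simp
      · simp
    map_smul' := fun c v => by
      ext ⟨i, j⟩
      refine Fin.addCases (fun i => ?_) (fun i => ?_) i
      · simp
      · simp }

theorem bw_apply (z : E (m + n)) (i : Fin m) (j : Fin 2) :
    (bw z : E m) (i, j) = z (Fin.castAdd n i, j) := rfl
theorem bv_apply (z : E (m + n)) (i : Fin n) (j : Fin 2) :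
    (bv z : E n) (i, j) = z (Fin.natAdd m i, j) := rfl

theorem jw_left (w : E m) (i : Fin m) (j : Fin 2) :
    (jw w : E (m + n)) (Fin.castAdd n i, j) = w (i, j) := by
  show Fin.addCases (motive := fun _ => ℝ) (fun i => w (i, j)) (fun _ => 0) (Fin.castAdd n i) = _
  rw [Fin.addCases_left]
theorem jw_right (w : E m) (i : Fin n) (j : Fin 2) :
    (jw w : E (m + n)) (Fin.natAdd m i, j) = 0 := by
  show Fin.addCases (motive := fun _ => ℝ) (fun i => w (i, j)) (fun _ => 0) (Fin.natAdd m i) = _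
  rw [Fin.addCases_right]
theorem jv_left (v : E n) (i : Fin m) (j : Fin 2) :
    (jv v : E (m + n)) (Fin.castAdd n i, j) = 0 := by
  show Fin.addCases (motive := fun _ => ℝ) (fun _ => 0) (fun i => v (i, j)) (Fin.castAdd n i) = _
  rw [Fin.addCases_left]
theorem jv_right (v : E n) (i : Fin n) (j : Fin 2) :
    (jv v : E (m + n)) (Fin.natAdd m i, j) = v (i, j) := by
  show Fin.addCases (motive := fun _ => ℝ) (fun _ => 0) (fun i => v (i, j)) (Fin.natAdd m i) = _
  rw [Fin.addCases_right]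

@[simp] theorem bw_jw (w : E m) : bw (jw w : E (m + n)) = w := by
  ext ⟨i, j⟩
  rw [bw_apply, jw_left]
@[simp] theorem bv_jw (w : E m) : bv (jw w : E (m + n)) = 0 := by
  ext ⟨i, j⟩
  rw [bv_apply, jw_right]
  rfl
@[simp] theorem bw_jv (v : E n) : bw (jv v : E (m + n)) = 0 := by
  ext ⟨i, j⟩
  rw [bw_apply, jv_left]
  rfl
@[simp] theorem bv_jv (v : E n) : bv (jv v : E (m + n)) = v := by
  ext ⟨i, j⟩
  rw [bv_apply, jv_right]

theorem ext2 {z z' : E (m + n)} (h1 : bw z = bw z') (h2 : bv z = bv z') : z = z' := by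
  ext ⟨i, j⟩
  refine Fin.addCases (fun i => ?_) (fun i => ?_) i
  · have := congrArg (fun w : E m => w (i, j)) h1
    simpa [bw_apply] using this
  · have := congrArg (fun w : E n => w (i, j)) h2
    simpa [bv_apply] using this

theorem eta2 (z : E (m + n)) : jw (bw z) + jv (bv z) = z := ext2 (by simp) (by simp)

theorem omega_split2 (z z' : E (m + n)) :
    omega z z' = omega (bw z) (bw z') + omega (bv z) (bv z') := by
  unfold omega
  rw [Fin.sum_univ_add]
  rfl

theorem norm_sq_split2 (z : E (m + n)) : ‖z‖ ^ 2 = ‖bw z‖ ^ 2 + ‖bv z‖ ^ 2 := by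
  rw [EuclideanSpace.norm_sq_eq, EuclideanSpace.norm_sq_eq, EuclideanSpace.norm_sq_eq]
  rw [Fintype.sum_prod_type, Fintype.sum_prod_type, Fintype.sum_prod_type, Fin.sum_univ_add]
  rfl

theorem norm_bw_le (z : E (m + n)) : ‖bw z‖ ≤ ‖z‖ := by
  have h := norm_sq_split2 z
  refine abs_le_of_sq_le_sq' ?_ (norm_nonneg z) |>.2
  nlinarith [sq_nonneg ‖bv z‖]

theorem norm_bv_le (z : E (m + n)) : ‖bv z‖ ≤ ‖z‖ := by
  have h := norm_sq_split2 z
  refine abs_le_of_sq_le_sq' ?_ (norm_nonneg z) |>.2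
  nlinarith [sq_nonneg ‖bw z‖]

theorem norm_le_split2 (z : E (m + n)) : ‖z‖ ≤ ‖bw z‖ + ‖bv z‖ := by
  have h := norm_sq_split2 z
  have h2 := norm_nonneg (bw z)
  have h3 := norm_nonneg (bv z)
  refine abs_le_of_sq_le_sq' ?_ (by positivity) |>.2
  nlinarith [mul_nonneg h2 h3]

theorem norm_jw (w : E m) : ‖(jw w : E (m + n))‖ = ‖w‖ := by
  have h := norm_sq_split2 (jw w : E (m + n))
  simp only [bw_jw, bv_jw, norm_zero] at h
  have : ‖(jw w : E (m + n))‖ ^ 2 = ‖w‖ ^ 2 := by rw [h]; ring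
  exact (sq_eq_sq₀ (norm_nonneg _) (norm_nonneg _)).1 this

theorem norm_jv (v : E n) : ‖(jv v : E (m + n))‖ = ‖v‖ := by
  have h := norm_sq_split2 (jv v : E (m + n))
  simp only [bw_jv, bv_jv, norm_zero] at h
  have : ‖(jv v : E (m + n))‖ ^ 2 = ‖v‖ ^ 2 := by rw [h]; ring
  exact (sq_eq_sq₀ (norm_nonneg _) (norm_nonneg _)).1 this

/-! ### The parts -/

/-- the `x`-part -/
def cx : E m →L[ℝ] E m := LinearMap.toContinuousLinearMap
  { toFun := fun w => WithLp.toLp 2 (fun p : Fin m × Fin 2 => if p.2 = 0 then w p else 0)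
    map_add' := fun u v => by
      ext ⟨i, j⟩
      fin_cases j
      · simp
      · simp
    map_smul' := fun c v => by
      ext ⟨i, j⟩
      fin_cases j
      · simp
      · simp }

/-- the `y`-part -/
def cy : E m →L[ℝ] E m := LinearMap.toContinuousLinearMap
  { toFun := fun w => WithLp.toLp 2 (fun p : Fin m × Fin 2 => if p.2 = 0 then 0 else w p)
    map_add' := fun u v => by
      ext ⟨i, j⟩
      fin_cases j
      · simp
      · simp
    map_smul' := fun c v => by
      ext ⟨i, j⟩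
      fin_cases j
      · simp
      · simp }

theorem cx_zero (w : E m) (i : Fin m) : cx w (i, 0) = w (i, 0) := rfl
theorem cx_one (w : E m) (i : Fin m) : cx w (i, 1) = 0 := rfl
theorem cy_zero (w : E m) (i : Fin m) : cy w (i, 0) = 0 := rfl
theorem cy_one (w : E m) (i : Fin m) : cy w (i, 1) = w (i, 1) := rfl

theorem cx_add_cy (w : E m) : cx w + cy w = w := by
  ext ⟨i, j⟩
  fin_cases j
  · show cx w (i, 0) + cy w (i, 0) = w (i, 0)
    rw [cx_zero, cy_zero, add_zero]
  · show cx w (i, 1) + cy w (i, 1) = w (i, 1)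
    rw [cx_one, cy_one, zero_add]

@[simp] theorem cx_cx (w : E m) : cx (cx w) = cx w := by
  ext ⟨i, j⟩
  fin_cases j <;> rfl
@[simp] theorem cx_cy (w : E m) : cx (cy w) = 0 := by
  ext ⟨i, j⟩
  fin_cases j <;> rfl
@[simp] theorem cy_cx (w : E m) : cy (cx w) = 0 := by
  ext ⟨i, j⟩
  fin_cases j <;> rfl
@[simp] theorem cy_cy (w : E m) : cy (cy w) = cy w := by
  ext ⟨i, j⟩
  fin_cases j <;> rfl

theorem omega_cx_cx (a b : E m) : omega (cx a) (cx b) = 0 := by
  unfold omega
  refine Finset.sum_eq_zero fun i _ => ?_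
  rw [cx_one, cx_one]
  ring

theorem omega_cy_cy (a b : E m) : omega (cy a) (cy b) = 0 := by
  unfold omega
  refine Finset.sum_eq_zero fun i _ => ?_
  rw [cy_zero, cy_zero]
  ring

theorem omega_add_right (u w v : E m) : omega u (w + v) = omega u w + omega u v := by
  rw [← om_apply, map_add, om_apply, om_apply]

theorem omega_smul_right (c : ℝ) (u v : E m) : omega u (c • v) = c * omega u v := by
  rw [← om_apply, map_smul, smul_eq_mul, om_apply]

theorem omega_neg_left (u v : E m) : omega (-u) v = -omega u v := by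
  rw [← om_apply, map_neg, LinearMap.neg_apply, om_apply]

theorem omega_neg_right (u v : E m) : omega u (-v) = -omega u v := by
  rw [← om_apply, map_neg, om_apply]

theorem omega_sub_left (u w v : E m) : omega (u - w) v = omega u v - omega w v := by
  rw [← om_apply, map_sub, LinearMap.sub_apply, om_apply, om_apply]

theorem omega_sub_right (u w v : E m) : omega u (w - v) = omega u w - omega u v := by
  rw [← om_apply, map_sub, om_apply, om_apply]

/-- `ω(P_x a, b) = ω(a, P_y b)` -/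
theorem omega_cx (a b : E m) : omega (cx a) b = omega a (cy b) := by
  have h1 := omega_add_right (cx a) (cx b) (cy b)
  have h2 := omega_add_left (cx a) (cy a) (cy b)
  rw [cx_add_cy, omega_cx_cx] at h1
  rw [cx_add_cy, omega_cy_cy] at h2
  rw [h1, h2]
  ring

/-- `ω(P_y a, b) = ω(a, P_x b)` -/
theorem omega_cy (a b : E m) : omega (cy a) b = omega a (cx b) := by
  have h1 := omega_add_right (cy a) (cx b) (cy b)
  have h2 := omega_add_left (cx a) (cy a) (cx b)
  rw [cx_add_cy, omega_cy_cy] at h1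
  rw [cx_add_cy, omega_cx_cx] at h2
  rw [h1, h2]
  ring

theorem norm_cx_le (w : E m) : ‖cx w‖ ≤ ‖w‖ := by
  have h1 : ‖cx w‖ ^ 2 ≤ ‖w‖ ^ 2 := by
    rw [EuclideanSpace.norm_sq_eq, EuclideanSpace.norm_sq_eq]
    refine Finset.sum_le_sum fun p _ => ?_
    obtain ⟨i, j⟩ := p
    fin_cases j
    · exact le_rfl
    · show ‖cx w (i, 1)‖ ^ 2 ≤ ‖w (i, 1)‖ ^ 2
      rw [cx_one, norm_zero, zero_pow two_ne_zero]
      exact sq_nonneg _
  exact abs_le_of_sq_le_sq' h1 (norm_nonneg w) |>.2

theorem norm_cy_le (w : E m) : ‖cy w‖ ≤ ‖w‖ := by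
  have h1 : ‖cy w‖ ^ 2 ≤ ‖w‖ ^ 2 := by
    rw [EuclideanSpace.norm_sq_eq, EuclideanSpace.norm_sq_eq]
    refine Finset.sum_le_sum fun p _ => ?_
    obtain ⟨i, j⟩ := p
    fin_cases j
    · show ‖cy w (i, 0)‖ ^ 2 ≤ ‖w (i, 0)‖ ^ 2
      rw [cy_zero, norm_zero, zero_pow two_ne_zero]
      exact sq_nonneg _
    · exact le_rfl
  exact abs_le_of_sq_le_sq' h1 (norm_nonneg w) |>.2

/-- a vector is determined by its parts -/
theorem ext_parts {a b : E m} (h1 : cx a = cx b) (h2 : cy a = cy b) : a = b := by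
  rw [← cx_add_cy a, ← cx_add_cy b, h1, h2]

end Pool.Agent.H84.Blk
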